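import Pool.Agent.NBP.Targets

/-!
# NBP: the set of heights with a large local mean square of zeta (BAD)
-/

set_option autoImplicit false

open MeasureTheory Complex Set Filter Topology
open Pool.Agent.Lib.TwoConst
open scoped ENNReal InnerProductSpace ComplexConjugate

namespace Pool.Agent.NBP

open Pool.Agent.NBL

/-- a continuous cutoff, equal to `1` on `[-T, T]` and to `0` outside `[-T-1, T+1]` -/
noncomputable def BAD_.cut (T u : ℝ) : ℝ := max 0 (min 1 (T + 1 - |u|))

theorem BAD_.cut_cont (T : ℝ) : Continuous (BAD_.cut T) := by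
  unfold BAD_.cut
  fun_prop

theorem BAD_.cut_one {T u : ℝ} (h : |u| ≤ T) : BAD_.cut T u = 1 := by
  unfold BAD_.cut
  rw [min_eq_left (by linarith), max_eq_right (by norm_num)]

theorem BAD_.cut_zero {T u : ℝ} (h : T + 1 ≤ |u|) : BAD_.cut T u = 0 := by
  unfold BAD_.cut
  rw [max_eq_left]
  exact (min_le_right _ _).trans (by linarith)

theorem BAD_.cut_nonneg (T u : ℝ) : 0 ≤ BAD_.cut T u := le_max_left _ _

theorem BAD_.cut_le (T u : ℝ) : BAD_.cut T u ≤ 1 :=
  max_le (by norm_num) (min_le_left _ _)

theorem p_BAD : T_BAD := by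
  have hpi := Real.pi_pos
  have hpi3 := Real.pi_gt_three
  refine ⟨1920 * Real.pi, by linarith, ?_⟩
  intro L R V hL hR hV
  set T : ℝ := R + L with hT
  have hT2 : 2 ≤ T := by linarith
  set B : ℝ → ℝ := fun u => ‖fz (u * I)‖ * BAD_.cut T u with hB
  have hBc : Continuous B := fz_cont.norm.mul (BAD_.cut_cont T)
  set M : ℕ := ⌈T + 1⌉₊ with hM
  have hM1 : T + 1 ≤ (M : ℝ) := Nat.le_ceil _
  have hM2 : (M : ℝ) ≤ 2 * T := by
    have := Nat.ceil_lt_add_one (show (0 : ℝ) ≤ T + 1 by linarith)
    linarith
  have hM0 : 1 ≤ M := by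
    have : (1 : ℝ) ≤ M := by linarith
    exact_mod_cast this
  have hMp : (0 : ℝ) < M := by linarith
  have hlogT : 0 ≤ Real.log T := Real.log_nonneg (by linarith)
  have hlogM : Real.log M ≤ 1 + Real.log T := by
    have h1 : Real.log M ≤ Real.log (2 * T) := Real.log_le_log hMp hM2
    rw [Real.log_mul (by norm_num) (by linarith)] at h1
    have := Real.log_two_lt_d9
    linarith
  have hlogM0 : 0 ≤ Real.log M := Real.log_nonneg (by linarith)
  -- the mean square of the cut off function
  have hsq : ∫⁻ u : ℝ, ENNReal.ofReal (B u ^ 2) ≤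
      ENNReal.ofReal (480 * Real.pi * M * (1 + Real.log M)) := by
    have hzc : Continuous fun t : ℝ => ‖riemannZeta (1 / 2 + t * I)‖ ^ 2 :=
      Pool.Agent.Lib.ThickFailure.continuous_zeta_line.norm.pow 2
    calc ∫⁻ u : ℝ, ENNReal.ofReal (B u ^ 2)
        ≤ ∫⁻ u in Ioc (-(M : ℝ)) M, ENNReal.ofReal (‖riemannZeta (1 / 2 + u * I)‖ ^ 2) := by
          rw [← lintegral_indicator measurableSet_Ioc]
          refine lintegral_mono fun u => ?_
          by_cases hu : u ∈ Ioc (-(M : ℝ)) M
          · rw [indicator_of_mem hu]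
            apply ENNReal.ofReal_le_ofReal
            have h1 : B u ≤ ‖riemannZeta (1 / 2 + u * I)‖ := by
              calc B u ≤ ‖fz (u * I)‖ * 1 :=
                    mul_le_mul_of_nonneg_left (BAD_.cut_le T u) (norm_nonneg _)
                _ ≤ _ := by
                    rw [mul_one]
                    exact fz_line u
            have h0 : 0 ≤ B u := mul_nonneg (norm_nonneg _) (BAD_.cut_nonneg T u)
            exact pow_le_pow_left₀ h0 h1 2
          · have hab : T + 1 ≤ |u| := by
              by_contra hcon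
              push Not at hcon
              rw [abs_lt] at hcon
              exact hu ⟨by linarith [hcon.1], by linarith [hcon.2]⟩
            have h0 : B u = 0 := by
              simp only [hB, BAD_.cut_zero hab, mul_zero]
            rw [h0]
            simp
      _ = ENNReal.ofReal (∫ u in (-(M : ℝ))..M, ‖riemannZeta (1 / 2 + u * I)‖ ^ 2) := by
          rw [intervalIntegral.integral_of_le (by linarith),
            ofReal_integral_eq_lintegral_ofReal
            ((hzc.integrableOn_Icc (a := -(M : ℝ)) (b := M)).mono_set Ioc_subset_Icc_self)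
            (Eventually.of_forall fun u => by positivity)]
      _ ≤ _ := ENNReal.ofReal_le_ofReal (mean_sq_int hM0)
  have hconv := conv_le hBc (x := 3 / 2) (L := L) (by norm_num) (by linarith)
  set J : ℝ → ℝ := fun y => ∫ t in (-L)..L, B (y - t) ^ 2 * P (3 / 2) 0 t with hJ
  have hJc : Continuous J := by
    have h6 : Continuous fun p : ℝ × ℝ => B (p.1 - p.2) ^ 2 * P (3 / 2) 0 p.2 :=
      ((hBc.comp (continuous_fst.sub continuous_snd)).pow 2).mul
        ((continuous_P (by norm_num) 0).comp continuous_snd)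
    exact intervalIntegral.continuous_parametric_intervalIntegral_of_continuous'
      (f := fun y t => B (y - t) ^ 2 * P (3 / 2) 0 t) h6 (-L) L
  have hVy : ∀ y ∈ Icc (-R) R, Vy L y = 1 / Real.pi * J y := by
    intro y hy
    unfold Vy
    congr 1
    refine intervalIntegral.integral_congr fun t ht => ?_
    rw [uIcc_of_le (by linarith)] at ht
    have hab : |y - t| ≤ T := by
      rw [abs_le]
      constructor <;> linarith [hy.1, hy.2, ht.1, ht.2]
    simp only [hB, BAD_.cut_one hab, mul_one]
  have hsub : {y : ℝ | y ∈ Icc (-R) R ∧ V < Vy L y} ⊆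
      {y : ℝ | ENNReal.ofReal V ≤ ENNReal.ofReal (1 / Real.pi * J y)} := by
    rintro y ⟨hy, hy2⟩
    rw [hVy y hy] at hy2
    exact ENNReal.ofReal_le_ofReal hy2.le
  have hmeas : Measurable fun y => ENNReal.ofReal (1 / Real.pi * J y) :=
    ENNReal.measurable_ofReal.comp (continuous_const.mul hJc).measurable
  have hV0 : ENNReal.ofReal V ≠ 0 := by
    rw [Ne, ENNReal.ofReal_eq_zero]
    linarith
  have hint : ∫⁻ y, ENNReal.ofReal (1 / Real.pi * J y) ≤
      ENNReal.ofReal (480 * Real.pi * M * (1 + Real.log M)) := by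
    calc ∫⁻ y, ENNReal.ofReal (1 / Real.pi * J y)
        = ENNReal.ofReal (1 / Real.pi) * ∫⁻ y, ENNReal.ofReal (J y) := by
          rw [← lintegral_const_mul' _ _ ENNReal.ofReal_ne_top]
          refine lintegral_congr fun y => ?_
          rw [ENNReal.ofReal_mul (by positivity)]
      _ ≤ ENNReal.ofReal (1 / Real.pi) * (ENNReal.ofReal Real.pi *
            ENNReal.ofReal (480 * Real.pi * M * (1 + Real.log M))) := by
          gcongr
          exact hconv.trans (by gcongr)
      _ = _ := by
          rw [← mul_assoc, ← ENNReal.ofReal_mul (by positivity), one_div,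
            inv_mul_cancel₀ hpi.ne', ENNReal.ofReal_one, one_mul]
  calc volume {y : ℝ | y ∈ Icc (-R) R ∧ V < Vy L y}
      ≤ volume {y : ℝ | ENNReal.ofReal V ≤ ENNReal.ofReal (1 / Real.pi * J y)} :=
        measure_mono hsub
    _ ≤ (∫⁻ y, ENNReal.ofReal (1 / Real.pi * J y)) / ENNReal.ofReal V :=
        meas_ge_le_lintegral_div hmeas.aemeasurable hV0 ENNReal.ofReal_ne_top
    _ ≤ ENNReal.ofReal (480 * Real.pi * M * (1 + Real.log M)) / ENNReal.ofReal V := by
        gcongr
    _ = ENNReal.ofReal (480 * Real.pi * M * (1 + Real.log M) / V) :=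
        (ENNReal.ofReal_div_of_pos hV).symm
    _ ≤ _ := by
        apply ENNReal.ofReal_le_ofReal
        have h1 : (M : ℝ) * (1 + Real.log M) ≤ 4 * T * (1 + Real.log T) := by
          calc (M : ℝ) * (1 + Real.log M) ≤ (2 * T) * (1 + (1 + Real.log T)) := by
                gcongr
            _ ≤ 4 * T * (1 + Real.log T) := by nlinarith
        have h2 : 480 * Real.pi * M * (1 + Real.log M) ≤
            1920 * Real.pi * T * (1 + Real.log T) := by
          have := mul_le_mul_of_nonneg_left h1 (show (0 : ℝ) ≤ 480 * Real.pi by positivity)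
          linarith
        exact div_le_div_of_nonneg_right h2 hV.le

end Pool.Agent.NBP
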