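import Mathlib
import Pool.Agent.NBL.Full4
import Pool.Agent.NBL.Low2
import Pool.Agent.NBL.Point2

/-!
# Two-sided bounds outside a subspace of dimension `N ^ (1 - c)`, unconditionally: targets

Goal (`T_DPW`): for every `ε > 0` there are `c > 0`, `N₀` such that for `N ≥ N₀` all Dirichlet
polynomials `D` with coefficients in some subspace of `ℂ^N` of codimension at most `N ^ (1 - c)`
satisfy `N ^ (-ε) I(D) ≤ I(ζ D) ≤ N ^ ε I(D)`.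
-/

set_option autoImplicit false

open MeasureTheory Complex Set Filter Topology
open Pool.Agent.Lib.TwoConst
open scoped ENNReal InnerProductSpace ComplexConjugate

namespace Pool.Agent.NBP

open Pool.Agent.NBL

/-- the transform on the line `Re s = 1/2 - x` -/
noncomputable def Tx (N : ℕ) (b : ℕ → ℂ) (x y : ℝ) : ℂ :=
  Nm N b (1 / 2 - x + y * I) / (1 / 2 - x + y * I)

/-- the weights -/
noncomputable def wx (x : ℝ) (n : ℕ) : ℝ := (n : ℝ) ^ (2 * x) * (1 / n - 1 / ((n : ℝ) + 1))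

/-- the weighted norm -/
noncomputable def Wx (N : ℕ) (b : ℕ → ℂ) (x : ℝ) : ℝ :=
  ∑ n ∈ Finset.Icc 1 N, ‖b n‖ ^ 2 * wx x n

/-- the quadratic form -/
noncomputable def Qb (N : ℕ) (b : ℕ → ℂ) : ℝ :=
  ∫ t in Ioi (0 : ℝ), ‖Hs b (Finset.Icc 1 N) t‖ ^ 2

/-- the local mean square of zeta, with a Poisson weight -/
noncomputable def Vy (L y : ℝ) : ℝ :=
  1 / Real.pi * ∫ t in (-L)..L, ‖fz (((y - t : ℝ) : ℂ) * I)‖ ^ 2 * P (3 / 2) 0 t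

/-- the sequence `e_n / √(w_n)` -/
noncomputable def bx (N : ℕ) (x : ℝ) (e : Fin N → ℂ) (n : ℕ) : ℂ :=
  if h : n - 1 < N then e ⟨n - 1, h⟩ * ((1 / √(wx x n) : ℝ) : ℂ) else 0

/-- WPL: weighted Plancherel on the line `1/2 - x`.

Proof: as `NBL.Fx_sq` (file NBL/GDef.lean) with `NBL.plancherel (adm_Fx ..)`, `NBL.mellin_Fx`:
`∫⁻ ‖Tx‖² = 2π ∫⁻ ‖Fx N b x t‖²`, `‖Fx N b x t‖ = t^(-x) ‖Fs N b t‖`, and on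
`(1/(n+1), 1/n]` (`NBL.floor_iff`, `NBL.Fs_eq`) `t^(-2x) ≥ n^(2x)`; so as in `NBL.Fs_sq` (one can
apply `Fs_sq` to the sequence `b n * n^x`: `‖Fs N (b n * n^x) t‖ ≤ ‖Fx N b x t‖` pointwise). -/
def T_WPL : Prop := ∀ (N : ℕ) (b : ℕ → ℂ) (x : ℝ), 0 ≤ x → x ≤ 1 / 4 →
  ENNReal.ofReal (2 * Real.pi * Wx N b x) ≤ ∫⁻ y : ℝ, ‖Tx N b x y‖ₑ ^ 2

/-- HGH: the high frequencies on the line `1/2 - x`.

Proof: `Nm N b (1/2 - x + y I) = ∑ b_k k^x k^(-(1/2 + y I)) - ∑ b_k (k+1)^x (k+1)^(-(1/2 + y I))`.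
Repeat `NBL.Nm_mean` and `NBL.high_full` (file NBL/Full.lean) with the coefficients `b_k k^x` and
`c_k k^x` (`c_k = b_{k-1}`; `(k+1)^(2x) ≤ 2 k^(2x)`); this gives
`∫⁻ over {R ≤ |y|} ≤ ofReal (32 Kmv (∑ ‖b n‖² n^(2x) / n) / R)` (the denominator satisfies
`|1/2 - x + y I| ≥ |y|`), and `n^(2x)/n ≤ 2 N wx x n`. -/
def T_HGH : Prop := ∀ (N : ℕ), 1 ≤ N → ∀ (b : ℕ → ℂ) (x R : ℝ), 0 ≤ x → x ≤ 1 / 4 →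
  (N : ℝ) + 1 ≤ R →
  ∫⁻ y in {y : ℝ | R ≤ |y|}, ‖Tx N b x y‖ₑ ^ 2 ≤ ENNReal.ofReal (64 * Kmv * N * Wx N b x / R)

/-- BKR: Bessel's inequality for orthonormal families, with weights.

Proof: as `NBL.bessel_kr` (file NBL/Full2.lean): `Tx N (bx N x e) x y = ⟪w, e⟫` with
`w_i = conj (un (i+1) s / s / √(wx x (i+1)))`, `s = 1/2 - x + y I`; Bessel
(`Orthonormal.sum_inner_products_le`) gives at most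
`‖w‖² = ∑ ‖un n s / s‖² / wx x n`, and as in `NBL.un_b1` `‖un n s / s‖ ≤ n^(x - 3/2)`
(derivative of `y^(-s)`), so the terms are at most `(n+1)/n² ≤ 2/n`, sum `≤ 2 (1 + log N)`
(see `NBL.kr_set` or `harmonic_le_one_add_log`). -/
def T_BKR : Prop := ∀ (N : ℕ), 1 ≤ N → ∀ x : ℝ, 0 ≤ x → x ≤ 1 / 4 → ∀ d : ℕ,
  ∀ e : Fin d → EuclideanSpace ℂ (Fin N), Orthonormal ℂ e → ∀ y : ℝ,
    ∑ i, ‖Tx N (bx N x (e i)) x y‖ ^ 2 ≤ 2 * (1 + Real.log N)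

/-- BAD: the set of heights where the local mean square is large.

Proof: Chebyshev, `V |B| ≤ ∫⁻ y in Icc (-R) R, ofReal (Vy L y)`; Tonelli as in `NBL.conv_le` (file
NBL/Low.lean; or apply `conv_le` to a continuous cutoff), `‖fz (u I)‖ ≤ ‖ζ (1/2 + u I)‖`
(`NBL.fz_line`), total mass of `P (3/2) 0` at most `π`, so it is at most the integral of `‖ζ‖²` over
`|u| ≤ R + L ≤ M := ⌈R + L⌉₊`, `NBL.mean_sq_int` (file NBL/Rare2.lean): at most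
`480 π M (1 + log M)`. -/
def T_BAD : Prop := ∃ C : ℝ, 1 ≤ C ∧ ∀ (L R V : ℝ), 1 ≤ L → 1 ≤ R → 0 < V →
  volume {y : ℝ | y ∈ Icc (-R) R ∧ V < Vy L y} ≤
    ENNReal.ofReal (C * (R + L) * (1 + Real.log (R + L)) / V)

/-- CNT: counting dimensions (hypothesis T_BKR).

Proof: let `Λ a i = a i * (i+1) * √(wx x (i+1))` (linear, injective; `wx x n > 0` for `n ≥ 1`).
`U' = Λ(U)` has the dimension `d` of `U`; take an orthonormal basis `e` of `U'`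
(`stdOrthonormalBasis`), `a_i = Λ⁻¹ e_i ∈ U`.  Then `xs N a_i = bx N x e_i` on `Icc 1 N`,
`Wx N (bx N x e_i) x = ‖e_i‖² = 1`, `‖a_i‖² ≤ 2 ‖e_i‖² = 2` as `n² wx x n ≥ n/(n+1) ≥ 1/2`, so
`Qb N (xs N a_i) ≤ 2 δ` and by `hB` `1 ≤ ∫⁻ y in B, ‖Tx ..‖²`.  Sum over `i`, T_BKR:
`d ≤ ∫⁻ y in B, ∑ .. ≤ 2 (1 + log N) volume B` (see `NBL.card_full`). -/
def T_CNT : Prop := ∀ (N : ℕ), 1 ≤ N → ∀ (x δ : ℝ), 0 ≤ x → x ≤ 1 / 4 → 0 ≤ δ →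
  ∀ B : Set ℝ, MeasurableSet B →
    (∀ b : ℕ → ℂ, Wx N b x = 1 → Qb N b ≤ 2 * δ → 1 ≤ ∫⁻ y in B, ‖Tx N b x y‖ₑ ^ 2) →
    ∀ U : Submodule ℂ (EuclideanSpace ℂ (Fin N)),
      (∀ a ∈ U, Qb N (xs N a) ≤ δ * ‖a‖ ^ 2) →
      ENNReal.ofReal (Module.finrank ℂ U) ≤ ENNReal.ofReal (2 * (1 + Real.log N)) * volume B

/-- GOD: the good heights (adaptation of `NBL.low_core` with `NBL.pointwise2`). -/
def T_GOD : Prop := ∀ (N : ℕ) (b : ℕ → ℂ) (x κ L K Mu Mv P₀ P₁ P₂ V R : ℝ), 0 < x →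
  x ≤ 1 / 4 → 0 < κ → κ ≤ 1 / 2 → 0 < L → 2 * L / (Real.pi * (K - L)) ≤ κ → L < K →
  3 / 2 < K → 2 * x / L ≤ κ → 1 ≤ Mu → 1 ≤ Mv → 0 < P₀ → 0 < P₁ → 0 < P₂ → P₂ ≤ 1 →
  Mu * P₀ ≤ P₂ → Mv * P₁ ≤ P₂ → P₀ < Mv → P₁ < Mu → P₁ ≤ 1 → 5 / 2 / L ≤ κ → 0 < R →
  4 * ∑ n ∈ Finset.Icc 1 N, ‖b n‖ ≤ Mv →
  (∀ y : ℝ, |y| ≤ R → ∀ z : ℂ, 0 ≤ z.re → z.re ≤ K → |z.im| ≤ K → ‖fz (z + y * I)‖ ≤ Mu) →
  ∫⁻ y in {y : ℝ | y ∈ Icc (-R) R ∧ ¬ V < Vy L y}, ‖Tx N b x y‖ₑ ^ 2 ≤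
    ENNReal.ofReal (18 * ((N : ℝ) + 1) ^ (2 * x) *
      Real.exp (2 * (κ * Real.log Mv + κ * (Real.log Mv - Real.log P₀) +
        5 / (2 * x) * (Real.log 12 + 1 / 2 + 1 / 2 * Real.log (1 + 5 / 3 * V) +
          κ * Real.log Mu + κ * (Real.log Mu - Real.log P₁))) - 2 * κ * Real.log P₂)) *
      (ENNReal.ofReal (4 * Real.pi * Qb N b) + ENNReal.ofReal (4 * R * P₂ ^ 2))

/-- PAR: the choice of the parameters (hypotheses T_WPL, T_HGH, T_BAD, T_GOD). -/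
def T_PAR : Prop := ∀ ε : ℝ, 0 < ε → ε ≤ 1 → ∃ (x c : ℝ) (N₀ : ℕ), 0 < x ∧ x ≤ 1 / 4 ∧ 0 < c ∧
  ∀ N : ℕ, N₀ ≤ N → ∃ B : Set ℝ, MeasurableSet B ∧ volume B ≤ ENNReal.ofReal ((N : ℝ) ^ (1 - c)) ∧
    ∀ b : ℕ → ℂ, Wx N b x = 1 → Qb N b ≤ 2 * (N : ℝ) ^ (-ε) → 1 ≤ ∫⁻ y in B, ‖Tx N b x y‖ₑ ^ 2

/-- FUL: almost all step functions (hypotheses T_CNT, T_PAR).

Proof: repeat `NBL.almost_all_full` (file NBL/Full3.lean) with the thresholds `N^(-ε)` and `N^ε`: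
`J = {i | N^(-ε) ≤ lam i ∧ lam i ≤ N^ε}`, `L = {N^ε < lam i}`, `M = {lam i < N^(-ε)}`.
`|L| ≤ N^(-ε) ∑ lam i ≤ N^(-ε) N (3 + log N)` (`NBL.g_norm`).  `|M|`: T_CNT for the span of
`v i`, `i ∈ M` (there `Qb N (xs N a) = ∑ lam i ‖⟪v i, a⟫‖² ≤ N^(-ε) ‖a‖²`), `δ = N^(-ε)`, `x, B`
from T_PAR: `|M| ≤ 2 (1 + log N) N^(1-c)`.  So `|L| + |M| ≤ N^(1-c')` for large `N` with
`c' = min ε c / 2`. -/
def T_FUL : Prop := ∀ ε : ℝ, 0 < ε → ε ≤ 1 → ∃ (c : ℝ) (N₀ : ℕ), 0 < c ∧ ∀ N : ℕ, N₀ ≤ N →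
  ∃ V : Submodule ℂ (Fin N → ℂ), (N : ℝ) - (N : ℝ) ^ (1 - c) ≤ Module.finrank ℂ V ∧
    ∀ a ∈ V, ∑ i, ‖a i‖ ^ 2 ≤ (N : ℝ) ^ ε * (∫ t in Ioi (0 : ℝ),
        ‖∑ i : Fin N, a i * (((((i : ℕ) + 1 : ℕ) : ℝ) * h (i + 1) t : ℝ) : ℂ)‖ ^ 2) ∧
      ∫ t in Ioi (0 : ℝ),
        ‖∑ i : Fin N, a i * (((((i : ℕ) + 1 : ℕ) : ℝ) * h (i + 1) t : ℝ) : ℂ)‖ ^ 2 ≤
        (N : ℝ) ^ ε * ∑ i, ‖a i‖ ^ 2

/-- DPW: almost all Dirichlet polynomials (hypothesis T_FUL).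

Proof: repeat `NBL.almost_all_D` (file NBL/Full4.lean): `N = m + 1`, `V.map (Lm m)`; the dimension
is at least `m - m^(1-c) ≥ N - N^(1-c/2)` for large `N`; use T_FUL with `ε/2` and absorb the
factor `2` of `Rm_two` in `N^(ε/2)` (`m^(ε/2) ≤ N^(ε/2)`). -/
def T_DPW : Prop := ∀ ε : ℝ, 0 < ε → ∃ (c : ℝ) (N₀ : ℕ), 0 < c ∧ ∀ N : ℕ, N₀ ≤ N →
  ∃ V : Submodule ℂ (Fin N → ℂ), (N : ℝ) - (N : ℝ) ^ (1 - c) ≤ Module.finrank ℂ V ∧ ∀ c ∈ V,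
    (N : ℝ) ^ (-ε) * ∫ t : ℝ, ‖∑ i : Fin N, c i * (((i : ℕ) + 1 : ℕ) : ℂ) ^
          (-(1 / 2 + t * Complex.I))‖ ^ 2 / (1 / 4 + t ^ 2) ≤
        ∫ t : ℝ, ‖riemannZeta (1 / 2 + t * Complex.I) * ∑ i : Fin N, c i *
          (((i : ℕ) + 1 : ℕ) : ℂ) ^ (-(1 / 2 + t * Complex.I))‖ ^ 2 / (1 / 4 + t ^ 2) ∧
      ∫ t : ℝ, ‖riemannZeta (1 / 2 + t * Complex.I) * ∑ i : Fin N, c i *
          (((i : ℕ) + 1 : ℕ) : ℂ) ^ (-(1 / 2 + t * Complex.I))‖ ^ 2 / (1 / 4 + t ^ 2) ≤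
        (N : ℝ) ^ ε * ∫ t : ℝ, ‖∑ i : Fin N, c i * (((i : ℕ) + 1 : ℕ) : ℂ) ^
          (-(1 / 2 + t * Complex.I))‖ ^ 2 / (1 / 4 + t ^ 2)

end Pool.Agent.NBP
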