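import Mathlib
import Pool.Agent.NBP.Targets

/-!
# NBP, target `T_BKR`: Bessel's inequality with weights
-/

set_option autoImplicit false

open MeasureTheory Complex Set Filter Topology
open Pool.Agent.Lib.TwoConst
open scoped ENNReal InnerProductSpace ComplexConjugate

namespace Pool.Agent.NBP

open Pool.Agent.NBL

namespace BKR_

lemma s_re (x y : ℝ) : (1 / 2 - x + y * I : ℂ).re = 1 / 2 - x := by
  simp

lemma s_ne {x : ℝ} (hx : x ≤ 1 / 4) (y : ℝ) : (1 / 2 - x + y * I : ℂ) ≠ 0 := by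
  intro h
  have h1 := congrArg Complex.re h
  rw [s_re] at h1
  simp only [zero_re] at h1
  linarith

lemma un_le {n : ℕ} (hn : 0 < n) {x : ℝ} (hx : x ≤ 1 / 4) (y : ℝ) :
    ‖un n (1 / 2 - x + y * I) / (1 / 2 - x + y * I)‖ ^ 2 ≤ (n : ℝ) ^ (2 * x) / (n : ℝ) ^ 3 := by
  have hn0 : (0 : ℝ) < n := by exact_mod_cast hn
  set s : ℂ := 1 / 2 - x + y * I with hs
  have hs0 : s ≠ 0 := s_ne hx y
  have hsr : s.re = 1 / 2 - x := s_re x y
  have hd : ∀ u ∈ Icc (n : ℝ) (n + 1), HasDerivWithinAt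
      (fun y : ℝ => (y : ℂ) ^ ((-s - 1) + 1) / ((-s - 1) + 1)) ((u : ℂ) ^ (-s - 1))
      (Icc (n : ℝ) (n + 1)) u := by
    intro u hu
    have hx0 : u ≠ 0 := (lt_of_lt_of_le hn0 hu.1).ne'
    refine (hasDerivAt_ofReal_cpow_const' hx0 ?_).hasDerivWithinAt
    intro h
    apply hs0
    linear_combination -h
  have hb : ∀ u ∈ Ico (n : ℝ) (n + 1), ‖(u : ℂ) ^ (-s - 1)‖ ≤ (n : ℝ) ^ (x - 3 / 2 : ℝ) := by
    intro u hu
    have hx0 : 0 < u := lt_of_lt_of_le hn0 hu.1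
    rw [norm_cpow_eq_rpow_re_of_pos hx0]
    have e : (-s - 1).re = x - 3 / 2 := by
      rw [sub_re, neg_re, hsr, one_re]
      ring
    rw [e]
    exact Real.rpow_le_rpow_of_nonpos hn0 hu.1 (by linarith)
  have h1 := norm_image_sub_le_of_norm_deriv_le_segment' hd hb (n + 1)
    (right_mem_Icc.2 (by linarith))
  have e1 : (fun y : ℝ => (y : ℂ) ^ ((-s - 1) + 1) / ((-s - 1) + 1)) ((n : ℝ) + 1) -
      (fun y : ℝ => (y : ℂ) ^ ((-s - 1) + 1) / ((-s - 1) + 1)) n = un n s / s := by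
    unfold un
    simp only [sub_add_cancel]
    push_cast
    field_simp
    ring
  rw [e1, add_sub_cancel_left, mul_one] at h1
  calc ‖un n s / s‖ ^ 2 ≤ ((n : ℝ) ^ (x - 3 / 2 : ℝ)) ^ 2 := pow_le_pow_left₀ (norm_nonneg _) h1 2
    _ = (n : ℝ) ^ (2 * x) / (n : ℝ) ^ 3 := by
        rw [← Real.rpow_natCast, ← Real.rpow_mul hn0.le, ← Real.rpow_natCast (n : ℝ) 3,
          ← Real.rpow_sub hn0]
        congr 1
        push_cast
        ring

lemma wx_pos {n : ℕ} (hn : 0 < n) (x : ℝ) : 0 < wx x n := by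
  have hn0 : (0 : ℝ) < n := by exact_mod_cast hn
  unfold wx
  have : 1 / ((n : ℝ) + 1) < 1 / n := one_div_lt_one_div_of_lt hn0 (by linarith)
  have : 0 < 1 / (n : ℝ) - 1 / ((n : ℝ) + 1) := by linarith
  positivity

lemma term_le {n : ℕ} (hn : 0 < n) {x : ℝ} (hx : x ≤ 1 / 4) (y : ℝ) :
    ‖un n (1 / 2 - x + y * I) / (1 / 2 - x + y * I)‖ ^ 2 / wx x n ≤ 2 * (n : ℝ)⁻¹ := by
  have hn0 : (0 : ℝ) < n := by exact_mod_cast hn
  have hn1 : (1 : ℝ) ≤ n := by exact_mod_cast hn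
  have hp : 0 < (n : ℝ) ^ (2 * x) := Real.rpow_pos_of_pos hn0 _
  rw [div_le_iff₀ (wx_pos hn x)]
  refine (un_le hn hx y).trans ?_
  unfold wx
  have e1 : 1 / (n : ℝ) - 1 / ((n : ℝ) + 1) = 1 / (n * (n + 1)) := by
    field_simp
    ring
  rw [e1, div_eq_mul_one_div, mul_left_comm]
  gcongr
  rw [div_le_iff₀ (by positivity)]
  have e2 : 2 * (n : ℝ)⁻¹ * (1 / (n * (n + 1))) * (n : ℝ) ^ 3 = 2 * n / (n + 1) := by
    field_simp
  rw [e2, le_div_iff₀ (by positivity)]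
  linarith

lemma bx_sum {N : ℕ} {β : Type*} [AddCommMonoid β] (x : ℝ) (F : ℕ → ℂ → β) (a : Fin N → ℂ) :
    ∑ n ∈ Finset.Icc 1 N, F n (bx N x a n) =
      ∑ i : Fin N, F (i + 1) (a i * ((1 / √(wx x (i + 1)) : ℝ) : ℂ)) := by
  have e2 : Finset.Icc 1 N = Finset.Ico 1 (N + 1) := by
    ext k; simp only [Finset.mem_Icc, Finset.mem_Ico]; omega
  rw [e2, Finset.sum_Ico_eq_sum_range, Nat.add_sub_cancel, Finset.sum_range]
  refine Finset.sum_congr rfl fun i _ => ?_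
  have : bx N x a (1 + i) = a i * ((1 / √(wx x (i + 1)) : ℝ) : ℂ) := by
    unfold bx
    rw [dif_pos (by omega)]
    have e3 : (⟨1 + (i : ℕ) - 1, by omega⟩ : Fin N) = i := by
      ext
      simp
    rw [e3, add_comm 1 (i : ℕ)]
  rw [this, add_comm 1 (i : ℕ)]

lemma harm (N : ℕ) : ∑ n ∈ Finset.Icc 1 N, (n : ℝ)⁻¹ ≤ 1 + Real.log N := by
  have h := harmonic_le_one_add_log N
  have e : (harmonic N : ℝ) = ∑ n ∈ Finset.Icc 1 N, (n : ℝ)⁻¹ := by
    rw [harmonic_eq_sum_Icc]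
    push_cast
    rfl
  rw [← e]
  exact h

end BKR_

open BKR_ in
theorem p_BKR : T_BKR := by
  intro N hN x hx0 hx1 d e he y
  set s : ℂ := 1 / 2 - x + y * I with hs
  set w : EuclideanSpace ℂ (Fin N) := WithLp.toLp 2 fun i =>
    conj (((1 / √(wx x ((i : ℕ) + 1)) : ℝ) : ℂ) * (un (i + 1) s / s)) with hw
  have h1 : ∀ a : EuclideanSpace ℂ (Fin N), Tx N (bx N x a) x y = ⟪w, a⟫_ℂ := by
    intro a
    unfold Tx Nm
    rw [← hs, bx_sum x (fun n z => z * un n s), PiLp.inner_apply, Finset.sum_div]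
    refine Finset.sum_congr rfl fun j _ => ?_
    rw [hw]
    change _ = a j * conj (conj (((1 / √(wx x ((j : ℕ) + 1)) : ℝ) : ℂ) * (un (j + 1) s / s)))
    rw [conj_conj]
    ring
  calc ∑ i, ‖Tx N (bx N x (e i)) x y‖ ^ 2 = ∑ i, ‖⟪e i, w⟫_ℂ‖ ^ 2 := by
        refine Finset.sum_congr rfl fun i _ => ?_
        rw [h1 (e i), norm_inner_symm]
    _ ≤ ‖w‖ ^ 2 := he.sum_inner_products_le w
    _ = ∑ n ∈ Finset.Icc 1 N, ‖un n s / s‖ ^ 2 / wx x n := by
        rw [EuclideanSpace.norm_sq_eq]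
        have e2 : Finset.Icc 1 N = Finset.Ico 1 (N + 1) := by
          ext k; simp only [Finset.mem_Icc, Finset.mem_Ico]; omega
        rw [e2, Finset.sum_Ico_eq_sum_range, Nat.add_sub_cancel, Finset.sum_range]
        refine Finset.sum_congr rfl fun i _ => ?_
        rw [hw, add_comm 1 (i : ℕ)]
        change ‖conj (((1 / √(wx x ((i : ℕ) + 1)) : ℝ) : ℂ) * (un (i + 1) s / s))‖ ^ 2 = _
        have h2 := wx_pos (n := (i : ℕ) + 1) (by omega) x
        rw [RCLike.norm_conj, norm_mul, mul_pow, Complex.norm_real, Real.norm_eq_abs, sq_abs,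
          div_pow, one_pow, Real.sq_sqrt h2.le]
        ring
    _ ≤ ∑ n ∈ Finset.Icc 1 N, 2 * (n : ℝ)⁻¹ :=
        Finset.sum_le_sum fun n hn => term_le (pos_of_mem hn) hx1 y
    _ ≤ 2 * (1 + Real.log N) := by
        rw [← Finset.mul_sum]
        have := harm N
        linarith

end Pool.Agent.NBP
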