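import Pool.Agent.NBP.Targets

/-!
# CNT: counting dimensions
-/

set_option autoImplicit false

open MeasureTheory Complex Set Filter Topology
open Pool.Agent.Lib.TwoConst
open scoped ENNReal InnerProductSpace ComplexConjugate

namespace Pool.Agent.NBP

open Pool.Agent.NBL

namespace CNT_

lemma wx_pos (x : ℝ) {n : ℕ} (hn : 1 ≤ n) : 0 < wx x n := by
  have hn0 : (0 : ℝ) < n := by exact_mod_cast hn
  unfold wx
  refine mul_pos (Real.rpow_pos_of_pos hn0 _) ?_
  rw [sub_pos]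
  exact one_div_lt_one_div_of_lt hn0 (by linarith)

lemma wx_low {x : ℝ} (hx : 0 ≤ x) {n : ℕ} (hn : 1 ≤ n) : 1 / 2 ≤ (n : ℝ) ^ 2 * wx x n := by
  have hn1 : (1 : ℝ) ≤ n := by exact_mod_cast hn
  have hn0 : (0 : ℝ) < n := by linarith
  have h1 : 1 ≤ (n : ℝ) ^ (2 * x) := Real.one_le_rpow hn1 (by linarith)
  have h2 : (n : ℝ) ^ 2 * wx x n = (n : ℝ) ^ (2 * x) * (n / (n + 1)) := by
    unfold wx
    field_simp
    ring
  have h3 : (1 / 2 : ℝ) ≤ n / (n + 1) := by
    rw [div_le_div_iff₀ (by norm_num) (by linarith)]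
    linarith
  rw [h2]
  nlinarith

/-- the weight of a coordinate -/
noncomputable def cf (x : ℝ) (n : ℕ) : ℝ := n * √(wx x n)

lemma cf_pos (x : ℝ) {n : ℕ} (hn : 1 ≤ n) : 0 < cf x n := by
  have hn0 : (0 : ℝ) < n := by exact_mod_cast hn
  exact mul_pos hn0 (Real.sqrt_pos.2 (wx_pos x hn))

lemma cf_sq (x : ℝ) {n : ℕ} (hn : 1 ≤ n) : cf x n ^ 2 = (n : ℝ) ^ 2 * wx x n := by
  rw [cf, mul_pow, Real.sq_sqrt (wx_pos x hn).le]

/-- the linear map `a i ↦ a i (i + 1) √(w (i + 1))` -/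
noncomputable def La (N : ℕ) (x : ℝ) :
    EuclideanSpace ℂ (Fin N) →ₗ[ℂ] EuclideanSpace ℂ (Fin N) where
  toFun a := WithLp.toLp 2 fun i => a i * ((cf x (i + 1) : ℝ) : ℂ)
  map_add' a b := by
    ext i
    simp [add_mul]
  map_smul' c a := by
    ext i
    simp [mul_assoc]

lemma La_apply (N : ℕ) (x : ℝ) (a : EuclideanSpace ℂ (Fin N)) (i : Fin N) :
    La N x a i = a i * ((cf x (i + 1) : ℝ) : ℂ) := rfl

lemma La_inj (N : ℕ) (x : ℝ) : Function.Injective (La N x) := by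
  rw [injective_iff_map_eq_zero]
  intro a ha
  ext i
  have h1 : La N x a i = 0 := by rw [ha]; rfl
  rw [La_apply, mul_eq_zero] at h1
  rcases h1 with h1 | h1
  · simpa using h1
  · exfalso
    have := cf_pos x (n := (i : ℕ) + 1) (by omega)
    rw [Complex.ofReal_eq_zero] at h1
    linarith

lemma bx_eq {N : ℕ} (x : ℝ) (a : EuclideanSpace ℂ (Fin N)) :
    bx N x (La N x a) = xs N a := by
  funext n
  rcases Nat.eq_zero_or_pos n with rfl | hn
  · unfold bx xs
    have h1 : √(wx x 0) = 0 := by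
      apply Real.sqrt_eq_zero_of_nonpos
      unfold wx
      have h2 : (0 : ℝ) ≤ ((0 : ℕ) : ℝ) ^ (2 * x) := Real.rpow_nonneg (by simp) _
      simp only [Nat.cast_zero] at h2 ⊢
      nlinarith
    simp [h1]
  · unfold bx xs
    split_ifs with h
    · have e1 : n - 1 + 1 = n := by omega
      rw [La_apply]
      change a ⟨n - 1, h⟩ * ((cf x (n - 1 + 1) : ℝ) : ℂ) * _ = _
      rw [e1, cf, mul_assoc, ← Complex.ofReal_mul]
      have h3 : √(wx x n) ≠ 0 := (Real.sqrt_pos.2 (wx_pos x hn)).ne'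
      have h4 : (n : ℝ) * √(wx x n) * (1 / √(wx x n)) = n := by
        field_simp
      rw [h4]
      norm_cast
    · rfl

lemma Wx_eq (N : ℕ) (x : ℝ) (a : EuclideanSpace ℂ (Fin N)) :
    Wx N (xs N a) x = ‖La N x a‖ ^ 2 := by
  unfold Wx
  rw [xs_sum (fun n z => ‖z‖ ^ 2 * wx x n) a, EuclideanSpace.norm_sq_eq]
  refine Finset.sum_congr rfl fun i _ => ?_
  rw [La_apply, norm_mul, norm_mul, mul_pow, mul_pow, Complex.norm_real, norm_natCast,
    Real.norm_eq_abs, sq_abs, cf_sq x (by omega)]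
  ring

lemma norm_le {N : ℕ} {x : ℝ} (hx : 0 ≤ x) (a : EuclideanSpace ℂ (Fin N)) :
    ‖a‖ ^ 2 ≤ 2 * ‖La N x a‖ ^ 2 := by
  rw [EuclideanSpace.norm_sq_eq, EuclideanSpace.norm_sq_eq, Finset.mul_sum]
  refine Finset.sum_le_sum fun i _ => ?_
  rw [La_apply, norm_mul, mul_pow, Complex.norm_real, Real.norm_eq_abs, sq_abs,
    cf_sq x (by omega)]
  have h1 := wx_low hx (n := (i : ℕ) + 1) (by omega)
  have h2 : 0 ≤ ‖a i‖ ^ 2 := by positivity
  nlinarith

lemma Tx_meas (N : ℕ) (b : ℕ → ℂ) {x : ℝ} (hx : x ≤ 1 / 4) :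
    Measurable fun y : ℝ => ‖Tx N b x y‖ₑ ^ 2 := by
  have h0 : ∀ y : ℝ, (1 / 2 - x + y * I : ℂ) ≠ 0 := by
    intro y h
    have h1 := congrArg Complex.re h
    simp at h1
    linarith
  have h2 : Continuous fun y : ℝ => Nm N b (1 / 2 - x + y * I) := by
    rw [continuous_iff_continuousAt]
    intro y
    have h1 : ContinuousAt (Nm N b) (1 / 2 - x + y * I) := (Nm_diff N _ _).continuousAt
    exact ContinuousAt.comp (f := fun y : ℝ => (1 / 2 - x + y * I : ℂ)) h1 (by fun_prop)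
  exact (h2.div (by fun_prop) h0).measurable.enorm.pow_const 2

end CNT_

open CNT_ in
theorem p_CNT (h_BKR : T_BKR) : T_CNT := by
  intro N hN x δ hx0 hx1 hδ B hBm hB U hU
  set U' : Submodule ℂ (EuclideanSpace ℂ (Fin N)) := U.map (La N x) with hU'
  have hdim : Module.finrank ℂ U' = Module.finrank ℂ U :=
    (LinearEquiv.finrank_eq (Submodule.equivMapOfInjective (La N x) (La_inj N x) U)).symm
  set v := stdOrthonormalBasis ℂ U' with hv
  set e : Fin (Module.finrank ℂ U') → EuclideanSpace ℂ (Fin N) := fun i => (v i : U') with he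
  have heo : Orthonormal ℂ e := v.orthonormal.comp_linearIsometry U'.subtypeₗᵢ
  have hea : ∀ i, ∃ a ∈ U, La N x a = e i := fun i => (v i).2
  choose a haU hae using hea
  have hbe : ∀ i, bx N x (e i) = xs N (a i) := by
    intro i
    rw [← hae i]
    exact bx_eq x (a i)
  have h1 : ∀ i, 1 ≤ ∫⁻ y in B, ‖Tx N (bx N x (e i)) x y‖ₑ ^ 2 := by
    intro i
    have hn : ‖La N x (a i)‖ = 1 := by
      rw [hae i]
      exact heo.1 i
    refine hB _ ?_ ?_
    · rw [hbe i, Wx_eq, hn, one_pow]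
    · rw [hbe i]
      refine (hU (a i) (haU i)).trans ?_
      have h2 := norm_le hx0 (a i)
      rw [hn] at h2
      nlinarith
  have h3 : ENNReal.ofReal (Module.finrank ℂ U) =
      ∑ _i : Fin (Module.finrank ℂ U'), (1 : ℝ≥0∞) := by
    rw [Finset.sum_const, Finset.card_univ, Fintype.card_fin, hdim]
    simp
  rw [h3]
  calc ∑ _i : Fin (Module.finrank ℂ U'), (1 : ℝ≥0∞)
      ≤ ∑ i, ∫⁻ y in B, ‖Tx N (bx N x (e i)) x y‖ₑ ^ 2 := Finset.sum_le_sum fun i _ => h1 i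
    _ = ∫⁻ y in B, ∑ i, ‖Tx N (bx N x (e i)) x y‖ₑ ^ 2 :=
        (lintegral_finsetSum _ fun i _ => Tx_meas N _ hx1).symm
    _ ≤ ∫⁻ _y in B, ENNReal.ofReal (2 * (1 + Real.log N)) := by
        refine lintegral_mono fun y => ?_
        simp_rw [enorm_sq]
        rw [← ENNReal.ofReal_sum_of_nonneg fun _ _ => by positivity]
        exact ENNReal.ofReal_le_ofReal (h_BKR N hN x hx0 hx1 _ e heo y)
    _ = _ := by rw [setLIntegral_const]

end Pool.Agent.NBP
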