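import Pool.Agent.NBP.Targets

/-!
# DPW: almost all Dirichlet polynomials, outside a subspace of dimension `N ^ (1 - c)`
-/

set_option autoImplicit false

open MeasureTheory Complex Set Filter Topology
open Pool.Agent.Lib.TwoConst
open scoped ENNReal InnerProductSpace ComplexConjugate

namespace Pool.Agent.NBP

open Pool.Agent.NBL

namespace DPW_

theorem two_le_rpow {a N : ℝ} (ha : 0 < a) (hN : (2 : ℝ) ^ (1 / a) ≤ N) : 2 ≤ N ^ a := by
  calc (2 : ℝ) = ((2 : ℝ) ^ (1 / a)) ^ a := by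
        rw [← Real.rpow_mul (by norm_num), one_div_mul_cancel ha.ne', Real.rpow_one]
    _ ≤ N ^ a := Real.rpow_le_rpow (by positivity) hN ha.le

theorem dim_le {m c₁ c₂ : ℝ} (hm : 1 ≤ m) (h1 : c₂ ≤ c₁) (h2 : c₂ ≤ 1)
    (h3 : 2 ≤ (m + 1) ^ (c₂ / 2)) : (m + 1) - (m + 1) ^ (1 - c₂ / 2) ≤ m - m ^ (1 - c₁) := by
  have e1 : m ^ (1 - c₁) ≤ m ^ (1 - c₂) :=
    Real.rpow_le_rpow_of_exponent_le hm (by linarith)
  have e2 : m ^ (1 - c₂) ≤ (m + 1) ^ (1 - c₂) :=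
    Real.rpow_le_rpow (by linarith) (by linarith) (by linarith)
  have e3 : 1 ≤ (m + 1) ^ (1 - c₂) := Real.one_le_rpow (by linarith) (by linarith)
  have e4 : (m + 1) ^ (1 - c₂ / 2) = (m + 1) ^ (1 - c₂) * (m + 1) ^ (c₂ / 2) := by
    rw [← Real.rpow_add (by linarith)]
    congr 1
    ring
  have e5 : (m + 1) ^ (1 - c₂) * 2 ≤ (m + 1) ^ (1 - c₂) * (m + 1) ^ (c₂ / 2) :=
    mul_le_mul_of_nonneg_left h3 (by linarith)
  rw [e4]
  linarith

end DPW_

open DPW_ in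
theorem p_DPW (h_FUL : T_FUL) : T_DPW := by
  intro ε hε
  obtain ⟨c₁, N₁, hc₁, hN₁⟩ := h_FUL (min (ε / 2) 1) (by positivity) (min_le_right _ _)
  set ε' : ℝ := min (ε / 2) 1 with hε'
  have hε'0 : 0 < ε' := by positivity
  have hε'1 : ε' ≤ ε / 2 := min_le_left _ _
  set c₂ : ℝ := min c₁ 1 with hc₂
  have hc₂0 : 0 < c₂ := by positivity
  obtain ⟨N₂, hN₂⟩ := exists_nat_ge ((2 : ℝ) ^ (1 / (ε / 2)))
  obtain ⟨N₃, hN₃⟩ := exists_nat_ge ((2 : ℝ) ^ (1 / (c₂ / 2)))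
  refine ⟨c₂ / 2, max (max (N₁ + 1) N₂) (max N₃ 4), by positivity, fun N hN => ?_⟩
  have hNa : N₁ + 1 ≤ N := (le_max_left _ _).trans ((le_max_left _ _).trans hN)
  have hNb : N₂ ≤ N := (le_max_right _ _).trans ((le_max_left _ _).trans hN)
  have hNc : N₃ ≤ N := (le_max_left _ _).trans ((le_max_right _ _).trans hN)
  have hN4 : 4 ≤ N := (le_max_right _ _).trans ((le_max_right _ _).trans hN)
  obtain ⟨m, rfl⟩ : ∃ m, N = m + 1 := ⟨N - 1, by omega⟩
  obtain ⟨V, hV, hVa⟩ := hN₁ m (by omega)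
  have hpi := Real.pi_pos
  have hm3 : (3 : ℝ) ≤ m := by
    have : 3 ≤ m := by omega
    exact_mod_cast this
  have hcast : ((m + 1 : ℕ) : ℝ) = m + 1 := by push_cast; ring
  have hb2 : 2 ≤ ((m + 1 : ℕ) : ℝ) ^ (ε / 2) :=
    two_le_rpow (by positivity) (hN₂.trans (by exact_mod_cast hNb))
  have hb3 : 2 ≤ ((m + 1 : ℕ) : ℝ) ^ (c₂ / 2) :=
    two_le_rpow (by positivity) (hN₃.trans (by exact_mod_cast hNc))
  refine ⟨V.map (Lm m), ?_, ?_⟩
  · rw [← (Submodule.equivMapOfInjective (Lm m) (Lm_inj m) V).finrank_eq]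
    refine le_trans ?_ hV
    rw [hcast] at hb3 ⊢
    exact dim_le (by linarith) (min_le_left _ _) (min_le_right _ _) hb3
  · rintro c ⟨a, ha, rfl⟩
    obtain ⟨h1, h2⟩ := hVa a ha
    have eD : ∀ s : ℂ, ∑ i : Fin (m + 1), (Lm m a) i * (((i : ℕ) + 1 : ℕ) : ℂ) ^ (-s) =
        DPl (m + 1) (dcf m (xa m a)) s := by
      intro s
      unfold DPl
      rw [fin_sum]
      rfl
    simp_rw [eD]
    rw [QP_mellin, QB_mellin, QB_dcf, QP_dcf]
    have eQ : ∫ t in Ioi (0 : ℝ),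
        ‖∑ i : Fin m, a i * (((((i : ℕ) + 1 : ℕ) : ℝ) * h (i + 1) t : ℝ) : ℂ)‖ ^ 2 =
        Q m (xa m a) := by
      unfold Q
      congr 1
      funext t
      rw [fin_sum fun n => xa m a n * ((n * h n t : ℝ) : ℂ)]
      congr 2
      exact Finset.sum_congr rfl fun i _ => by rw [xa_apply]
    have eS : ∑ i, ‖a i‖ ^ 2 = ∑ n ∈ Finset.Icc 1 m, ‖xa m a n‖ ^ 2 := by
      rw [fin_sum fun n => ‖xa m a n‖ ^ 2]
      exact Finset.sum_congr rfl fun i _ => by rw [xa_apply]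
    rw [eQ, eS] at h1 h2
    obtain ⟨r1, r2⟩ := Rm_two m (xa m a)
    set S : ℝ := ∑ n ∈ Finset.Icc 1 m, ‖xa m a n‖ ^ 2 with hS
    set R : ℝ := Rm m fun n => n * xa m a n with hR
    set q : ℝ := Q m (xa m a) with hq
    have hq0 : 0 ≤ q := Q_nonneg _ _
    have hS0 : 0 ≤ S := Finset.sum_nonneg fun n _ => by positivity
    have hR0 : 0 ≤ R := Rm_nonneg _ _
    set M : ℝ := ((m + 1 : ℕ) : ℝ) with hM
    have hM1 : 1 ≤ M := by rw [hcast]; linarith
    have hM0 : 0 < M := by linarith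
    have hme : (m : ℝ) ^ ε' ≤ M ^ (ε / 2) := by
      calc (m : ℝ) ^ ε' ≤ M ^ ε' :=
            Real.rpow_le_rpow (by linarith) (by rw [hcast]; linarith) hε'0.le
        _ ≤ M ^ (ε / 2) := Real.rpow_le_rpow_of_exponent_le hM1 hε'1
    have hMM : M ^ ε = M ^ (ε / 2) * M ^ (ε / 2) := by
      rw [← Real.rpow_add hM0]
      congr 1
      ring
    have hME0 : 0 < M ^ (ε / 2) := by positivity
    constructor
    · have h3 : R ≤ M ^ ε * q := by
        calc R ≤ S := r2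
          _ ≤ (m : ℝ) ^ ε' * q := h1
          _ ≤ M ^ ε * q := by
              refine mul_le_mul_of_nonneg_right ?_ hq0
              refine hme.trans (Real.rpow_le_rpow_of_exponent_le hM1 (by linarith))
      have h4 : M ^ (-ε) * R ≤ q := by
        rw [Real.rpow_neg hM0.le, inv_mul_le_iff₀ (by positivity)]
        exact h3
      calc M ^ (-ε) * (2 * Real.pi * R) = 2 * Real.pi * (M ^ (-ε) * R) := by ring
        _ ≤ 2 * Real.pi * q := by gcongr
    · have h3 : q ≤ M ^ ε * R := by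
        calc q ≤ (m : ℝ) ^ ε' * S := h2
          _ ≤ M ^ (ε / 2) * (2 * R) := by
              gcongr
              linarith
          _ = M ^ (ε / 2) * 2 * R := by ring
          _ ≤ M ^ (ε / 2) * M ^ (ε / 2) * R := by gcongr
          _ = _ := by rw [hMM]
      calc 2 * Real.pi * q ≤ 2 * Real.pi * (M ^ ε * R) := by gcongr
        _ = _ := by ring

end Pool.Agent.NBP
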