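import Pool.Agent.NBP.Targets

/-!
# NBP, block FUL: almost all step functions
-/

set_option autoImplicit false

open MeasureTheory Complex Set Filter Topology
open scoped ENNReal InnerProductSpace ComplexConjugate

namespace Pool.Agent.NBP

open Pool.Agent.NBL

namespace FUL_

/-- the quadratic form in terms of the vector -/
lemma Qb_xs {N : ℕ} (a : Fin N → ℂ) : Qb N (xs N a) = ∫ t in Ioi (0 : ℝ),
    ‖∑ j : Fin N, a j * (((((j : ℕ) + 1 : ℕ) : ℝ) * h (j + 1) t : ℝ) : ℂ)‖ ^ 2 := by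
  unfold Qb
  have e2 : ∀ t : ℝ, Hs (xs N a) (Finset.Icc 1 N) t =
      ∑ j, a j * (((((j : ℕ) + 1 : ℕ) : ℝ) * h (j + 1) t : ℝ) : ℂ) := by
    intro t
    unfold Hs
    rw [xs_sum (fun n z => z * (h n t : ℂ)) a]
    refine Finset.sum_congr rfl fun j _ => ?_
    push_cast
    ring
  simp_rw [e2]

/-- the number of large eigenvalues -/
lemma card_large {N : ℕ} (hN : 1 ≤ N) {A : ℝ} (lam : Fin N → ℝ) (hlam : ∀ i, 0 ≤ lam i)
    (hsum : ∑ i, lam i = ∑ j : Fin N,
      ∫ t in Ioi (0 : ℝ), ‖(((((j : ℕ) + 1 : ℕ) : ℝ) * h (j + 1) t : ℝ) : ℂ)‖ ^ 2)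
    (J : Finset (Fin N)) (hJ : ∀ i ∈ J, A ≤ lam i) :
    (J.card : ℝ) * A ≤ N * (3 + Real.log N) := by
  have hN' : (1 : ℝ) ≤ N := by exact_mod_cast hN
  have hterm : ∀ j : Fin N,
      ∫ t in Ioi (0 : ℝ), ‖(((((j : ℕ) + 1 : ℕ) : ℝ) * h (j + 1) t : ℝ) : ℂ)‖ ^ 2 ≤
        3 + Real.log N := by
    intro j
    refine (g_norm (n := j + 1) (by omega)).trans ?_
    have h1 : (((j : ℕ) + 1 : ℕ) : ℝ) ≤ N := by exact_mod_cast j.2
    have h2 : (0 : ℝ) < (((j : ℕ) + 1 : ℕ) : ℝ) := by exact_mod_cast Nat.succ_pos _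
    have h3 := Real.log_le_log h2 h1
    linarith
  calc (J.card : ℝ) * A = ∑ _i ∈ J, A := by
        rw [Finset.sum_const, nsmul_eq_mul]
    _ ≤ ∑ i ∈ J, lam i := Finset.sum_le_sum hJ
    _ ≤ ∑ i, lam i := Finset.sum_le_sum_of_subset_of_nonneg (Finset.subset_univ _)
        fun i _ _ => hlam i
    _ = _ := hsum
    _ ≤ ∑ _j : Fin N, (3 + Real.log N) := Finset.sum_le_sum fun j _ => hterm j
    _ = _ := by rw [Finset.sum_const, Finset.card_univ, Fintype.card_fin, nsmul_eq_mul]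

/-- the span of some of the vectors of an orthonormal basis -/
lemma span_facts {N : ℕ} (v : OrthonormalBasis (Fin N) ℂ (EuclideanSpace ℂ (Fin N)))
    (J : Finset (Fin N)) :
    Module.finrank ℂ (Submodule.span ℂ (range fun i : J => v i)) = J.card ∧
    ∀ x ∈ Submodule.span ℂ (range fun i : J => v i), ∀ i, i ∉ J → ⟪v i, x⟫_ℂ = 0 := by
  have hbi : LinearIndependent ℂ (fun i : J => v i) :=
    v.orthonormal.linearIndependent.comp _ Subtype.val_injective
  constructor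
  · rw [finrank_span_eq_card hbi, Fintype.card_coe]
  · intro x hx i hi
    have h1 : Submodule.span ℂ (range fun i : J => v i) ≤
        LinearMap.ker (innerSL ℂ (v i)).toLinearMap := by
      rw [Submodule.span_le]
      rintro y ⟨j, rfl⟩
      change ⟪v i, v j⟫_ℂ = 0
      apply v.orthonormal.2
      intro hij
      apply hi
      rw [hij]
      exact j.2
    exact h1 hx

/-- the choice of the exponent -/
lemma expo {m : ℝ} (hm : 0 < m) : ∃ N₀ : ℕ, ∀ N : ℕ, N₀ ≤ N →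
    5 + 3 * Real.log N ≤ (N : ℝ) ^ (m / 2) := by
  have t1 : Tendsto (fun N : ℕ => Real.log N) atTop atTop :=
    Real.tendsto_log_atTop.comp tendsto_natCast_atTop_atTop
  have h1 := (isLittleO_log_rpow_atTop (show 0 < m / 2 by linarith)).comp_tendsto
    tendsto_natCast_atTop_atTop
  have h2 := h1.def (show (0 : ℝ) < 1 / 8 by norm_num)
  obtain ⟨N₁, hN₁⟩ := eventually_atTop.1 h2
  obtain ⟨N₂, hN₂⟩ := eventually_atTop.1 (t1.eventually_ge_atTop 1)
  refine ⟨max N₁ N₂, fun N hN => ?_⟩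
  have h3 := hN₁ N ((le_max_left _ _).trans hN)
  have h4 := hN₂ N ((le_max_right _ _).trans hN)
  simp only [Function.comp_apply, Real.norm_eq_abs] at h3
  have h5 : 0 ≤ (N : ℝ) ^ (m / 2) := by positivity
  rw [abs_of_nonneg (by linarith : 0 ≤ Real.log (N : ℝ)), abs_of_nonneg h5] at h3
  linarith

end FUL_

theorem p_FUL (hCNT : T_CNT) (hPAR : T_PAR) : T_FUL := by
  intro ε hε hε1
  obtain ⟨x, c, N₁, hx0, hx1, hc, hP⟩ := hPAR ε hε hε1
  set m : ℝ := min ε c with hm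
  have hm0 : 0 < m := lt_min hε hc
  have hmε : m ≤ ε := min_le_left _ _
  have hmc : m ≤ c := min_le_right _ _
  obtain ⟨N₂, hN₂⟩ := FUL_.expo hm0
  refine ⟨m / 2, max (max N₁ N₂) 1, by linarith, fun N hN => ?_⟩
  have hNa : N₁ ≤ N := (le_max_left _ _).trans ((le_max_left _ _).trans hN)
  have hNb : N₂ ≤ N := (le_max_right _ _).trans ((le_max_left _ _).trans hN)
  have hN1 : 1 ≤ N := (le_max_right _ _).trans hN
  have hN' : (1 : ℝ) ≤ N := by exact_mod_cast hN1
  have hN0 : (0 : ℝ) < N := by linarith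
  have hlog : 0 ≤ Real.log N := Real.log_nonneg hN'
  obtain ⟨B, hBm, hBv, hBb⟩ := hP N hNa
  obtain ⟨v, lam, hq, hsum⟩ := spectral
    (fun (i : Fin N) t => (((((i : ℕ) + 1 : ℕ) : ℝ) * h (i + 1) t : ℝ) : ℂ))
    fun i => adm_g (n := i + 1) (by omega)
  have hlam : ∀ i, ∫ t in Ioi (0 : ℝ),
      ‖∑ j, v i j * (((((j : ℕ) + 1 : ℕ) : ℝ) * h (j + 1) t : ℝ) : ℂ)‖ ^ 2 = lam i := by
    intro i
    rw [hq (v i)]
    have h1 : ∀ j, lam j * ‖⟪v j, v i⟫_ℂ‖ ^ 2 = if j = i then lam i else 0 := by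
      intro j
      by_cases hj : j = i
      · rw [if_pos hj, hj]
        have := v.orthonormal.1 i
        rw [inner_self_eq_norm_sq_to_K, this]
        simp
      · rw [if_neg hj, v.orthonormal.2 hj]
        simp
    rw [Finset.sum_congr rfl fun j _ => h1 j, Finset.sum_ite_eq' Finset.univ i]
    simp
  have hlam0 : ∀ i, 0 ≤ lam i := fun i => by
    rw [← hlam i]
    exact integral_nonneg fun t => by positivity
  classical
  set J : Finset (Fin N) := Finset.univ.filter fun i =>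
    (N : ℝ) ^ (-ε) ≤ lam i ∧ lam i ≤ (N : ℝ) ^ ε with hJ
  set L : Finset (Fin N) := Finset.univ.filter fun i => (N : ℝ) ^ ε < lam i with hL
  set M : Finset (Fin N) := Finset.univ.filter fun i => lam i < (N : ℝ) ^ (-ε) with hM
  have hLc : (L.card : ℝ) ≤ (3 + Real.log N) * (N : ℝ) ^ (1 - m) := by
    have h1 := FUL_.card_large hN1 (A := (N : ℝ) ^ ε) lam hlam0 hsum L fun i hi => by
      rw [hL, Finset.mem_filter] at hi
      exact hi.2.le
    have h2 : (L.card : ℝ) ≤ (3 + Real.log N) * (N : ℝ) ^ (1 - ε) := by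
      have h3 : (N : ℝ) ^ (1 - ε) * (N : ℝ) ^ ε = N := by
        rw [← Real.rpow_add hN0, sub_add_cancel, Real.rpow_one]
      have h4 : (0 : ℝ) < (N : ℝ) ^ ε := by positivity
      have h5 : (L.card : ℝ) * (N : ℝ) ^ ε ≤
          (3 + Real.log N) * (N : ℝ) ^ (1 - ε) * (N : ℝ) ^ ε := by
        rw [mul_assoc, h3]
        linarith
      exact le_of_mul_le_mul_right h5 h4
    refine h2.trans (mul_le_mul_of_nonneg_left ?_ (by linarith))
    exact Real.rpow_le_rpow_of_exponent_le hN' (by linarith)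
  have hMc : (M.card : ℝ) ≤ 2 * (1 + Real.log N) * (N : ℝ) ^ (1 - m) := by
    obtain ⟨hf, ho⟩ := FUL_.span_facts v M
    have h1 := hCNT N hN1 x ((N : ℝ) ^ (-ε)) hx0.le hx1 (by positivity) B hBm hBb
      (Submodule.span ℂ (range fun i : M => v i)) (by
        intro a ha
        rw [FUL_.Qb_xs]
        have h2 : ∫ t in Ioi (0 : ℝ), ‖∑ j : Fin N, a j *
            (((((j : ℕ) + 1 : ℕ) : ℝ) * h (j + 1) t : ℝ) : ℂ)‖ ^ 2 =
              ∑ i, lam i * ‖⟪v i, a⟫_ℂ‖ ^ 2 := hq a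
        rw [h2, ← v.sum_sq_norm_inner_right a, Finset.mul_sum]
        refine Finset.sum_le_sum fun i _ => ?_
        by_cases hi : i ∈ M
        · rw [hM, Finset.mem_filter] at hi
          exact mul_le_mul_of_nonneg_right hi.2.le (by positivity)
        · rw [ho a ha i hi]
          simp)
    rw [hf] at h1
    have h3 : ENNReal.ofReal (M.card : ℝ) ≤
        ENNReal.ofReal (2 * (1 + Real.log N) * (N : ℝ) ^ (1 - c)) := by
      rw [ENNReal.ofReal_mul (by positivity)]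
      exact h1.trans (mul_le_mul_right hBv _)
    rw [ENNReal.ofReal_le_ofReal_iff (by positivity)] at h3
    refine h3.trans (mul_le_mul_of_nonneg_left ?_ (by positivity))
    exact Real.rpow_le_rpow_of_exponent_le hN' (by linarith)
  have hcard : (N : ℝ) - (N : ℝ) ^ (1 - m / 2) ≤ J.card := by
    have h1 : (Finset.univ : Finset (Fin N)) ⊆ J ∪ (L ∪ M) := by
      intro i _
      rw [Finset.mem_union, Finset.mem_union, hJ, hL, hM]
      simp only [Finset.mem_filter, Finset.mem_univ, true_and]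
      by_cases h1 : lam i < (N : ℝ) ^ (-ε)
      · exact Or.inr (Or.inr h1)
      · by_cases h2 : (N : ℝ) ^ ε < lam i
        · exact Or.inr (Or.inl h2)
        · exact Or.inl ⟨not_lt.1 h1, not_lt.1 h2⟩
    have h2 : (N : ℝ) ≤ J.card + (L.card + M.card) := by
      have h3 := (Finset.card_le_card h1).trans (Finset.card_union_le _ _)
      have h4 := Finset.card_union_le L M
      rw [Finset.card_univ, Fintype.card_fin] at h3
      have h5 : N ≤ J.card + (L.card + M.card) := by omega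
      exact_mod_cast h5
    have h3 : (3 + Real.log N) * (N : ℝ) ^ (1 - m) + 2 * (1 + Real.log N) * (N : ℝ) ^ (1 - m) ≤
        (N : ℝ) ^ (1 - m / 2) := by
      calc (3 + Real.log N) * (N : ℝ) ^ (1 - m) + 2 * (1 + Real.log N) * (N : ℝ) ^ (1 - m)
          = (5 + 3 * Real.log N) * (N : ℝ) ^ (1 - m) := by ring
        _ ≤ (N : ℝ) ^ (m / 2) * (N : ℝ) ^ (1 - m) :=
            mul_le_mul_of_nonneg_right (hN₂ N hNb) (by positivity)
        _ = (N : ℝ) ^ (1 - m / 2) := by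
            rw [← Real.rpow_add hN0]
            congr 1
            ring
    linarith
  obtain ⟨hf, ho⟩ := FUL_.span_facts v J
  set e := WithLp.linearEquiv 2 ℂ (Fin N → ℂ) with he
  set U : Submodule ℂ (EuclideanSpace ℂ (Fin N)) :=
    Submodule.span ℂ (range fun i : J => v i) with hU
  refine ⟨U.map e.toLinearMap, ?_, ?_⟩
  · rw [LinearEquiv.finrank_map_eq e U, hf]
    exact hcard
  · intro a ha
    obtain ⟨y, hy, rfl⟩ := ha
    have hy0 : ∀ i, i ∉ J → ⟪v i, y⟫_ℂ = 0 := ho y hy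
    have hn : ∑ i, ‖(e.toLinearMap y) i‖ ^ 2 = ∑ i, ‖⟪v i, y⟫_ℂ‖ ^ 2 := by
      rw [v.sum_sq_norm_inner_right y, EuclideanSpace.norm_sq_eq]
      rfl
    have hqx : ∫ t in Ioi (0 : ℝ), ‖∑ i : Fin N, (e.toLinearMap y) i *
        (((((i : ℕ) + 1 : ℕ) : ℝ) * h (i + 1) t : ℝ) : ℂ)‖ ^ 2 =
        ∑ i, lam i * ‖⟪v i, y⟫_ℂ‖ ^ 2 := hq y
    rw [hn, hqx]
    simp_rw [Finset.mul_sum]
    constructor
    · refine Finset.sum_le_sum fun i _ => ?_
      by_cases hi : i ∈ J
      · rw [hJ, Finset.mem_filter] at hi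
        have h1 := hi.2.1
        have h2 : 1 ≤ (N : ℝ) ^ ε * lam i := by
          calc (1 : ℝ) = (N : ℝ) ^ ε * (N : ℝ) ^ (-ε) := by
                rw [← Real.rpow_add hN0, add_neg_cancel, Real.rpow_zero]
            _ ≤ _ := mul_le_mul_of_nonneg_left h1 (by positivity)
        calc ‖⟪v i, y⟫_ℂ‖ ^ 2 = 1 * ‖⟪v i, y⟫_ℂ‖ ^ 2 := (one_mul _).symm
          _ ≤ ((N : ℝ) ^ ε * lam i) * ‖⟪v i, y⟫_ℂ‖ ^ 2 :=
              mul_le_mul_of_nonneg_right h2 (by positivity)
          _ = _ := by ring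
      · rw [hy0 i hi]
        simp
    · refine Finset.sum_le_sum fun i _ => ?_
      by_cases hi : i ∈ J
      · rw [hJ, Finset.mem_filter] at hi
        exact mul_le_mul_of_nonneg_right hi.2.2 (by positivity)
      · rw [hy0 i hi]
        simp

end Pool.Agent.NBP
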