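import Pool.Agent.NBP.Targets

/-!
# The good heights
-/

set_option autoImplicit false

open MeasureTheory Complex Set Filter Topology
open Pool.Agent.Lib.TwoConst
open scoped ENNReal InnerProductSpace ComplexConjugate

namespace Pool.Agent.NBP

open Pool.Agent.NBL

lemma GOD_meas (L : ℝ) : Continuous (Vy L) := by
  unfold Vy
  have h6 : Continuous fun p : ℝ × ℝ =>
      ‖fz (((p.1 - p.2 : ℝ) : ℂ) * I)‖ ^ 2 * P (3 / 2) 0 p.2 :=
    (((fz_cont.comp (continuous_fst.sub continuous_snd)).norm).pow 2).mul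
      ((continuous_P (by norm_num) 0).comp continuous_snd)
  exact continuous_const.mul
    (intervalIntegral.continuous_parametric_intervalIntegral_of_continuous'
      (f := fun y t => ‖fz (((y - t : ℝ) : ℂ) * I)‖ ^ 2 * P (3 / 2) 0 t) h6 (-L) L)

lemma GOD_real (N : ℕ) (b : ℕ → ℂ) :
    ∫⁻ t in Ioi (0 : ℝ), ‖Hs b (Finset.Icc 1 N) t‖ₑ ^ 2 = ENNReal.ofReal (Qb N b) := by
  have hadm : Adm (Hs b (Finset.Icc 1 N)) := adm_Hs b fun n hn => pos_of_mem hn
  have h1 : Integrable (fun t => ‖Hs b (Finset.Icc 1 N) t‖ ^ 2) (volume.restrict (Ioi 0)) :=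
    (memLp_two_iff_integrable_sq_norm hadm.1.aestronglyMeasurable).1 hadm.memLp
  unfold Qb
  rw [ofReal_integral_eq_lintegral_ofReal h1 (Eventually.of_forall fun t => by positivity)]
  simp_rw [enorm_sq]

theorem p_GOD : T_GOD := by
  intro N b x κ L K Mu Mv P₀ P₁ P₂ V R hx hx4 hκ hκ2 hL hK hLK hK2 hxL hMu hMv hP₀ hP₁ hP₂ hP₂1
    h02 h12 hP₀v hP₁u hP₁1 hXL hR hv hu
  have hpi := Real.pi_pos
  have hpi3 := Real.pi_gt_three
  set E : ℝ := 2 * (κ * Real.log Mv + κ * (Real.log Mv - Real.log P₀) +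
        5 / (2 * x) * (Real.log 12 + 1 / 2 + 1 / 2 * Real.log (1 + 5 / 3 * V) +
          κ * Real.log Mu + κ * (Real.log Mu - Real.log P₁))) - 2 * κ * Real.log P₂ with hE
  set IH : ℝ≥0∞ := ∫⁻ t in Ioi (0 : ℝ), ‖Hs b (Finset.Icc 1 N) t‖ₑ ^ 2 with hIH
  have hIQ : ENNReal.ofReal (4 * Real.pi * Qb N b) = ENNReal.ofReal (4 * Real.pi) * IH := by
    rw [hIH, GOD_real, ENNReal.ofReal_mul (by positivity)]
  rw [hIQ]
  have hinv : ∀ z : ℝ≥0∞, ENNReal.ofReal (2 * Real.pi) * (ENNReal.ofReal (1 / (2 * Real.pi)) * z) =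
      z := by
    intro z
    rw [← mul_assoc, ← ENNReal.ofReal_mul (by positivity)]
    rw [show 2 * Real.pi * (1 / (2 * Real.pi)) = 1 by field_simp]
    simp
  set B : ℝ → ℝ := fun t => ‖fz (t * I)‖ * ‖qf N b (t * I)‖ with hB
  have hqc : Continuous fun t : ℝ => qf N b (t * I) := by
    rw [continuous_iff_continuousAt]
    intro t
    have h1 : ContinuousAt (qf N b) (t * I) := (qf_diff N b (by simp)).continuousAt
    exact ContinuousAt.comp (f := fun t : ℝ => (t * I : ℂ)) h1 (by fun_prop)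
  have hBc : Continuous B := fz_cont.norm.mul hqc.norm
  set Ii : ℝ → ℝ := fun y => ∫ t in (-L)..L, B (y - t) ^ 2 * P x 0 t with hIi
  have hIi0 : ∀ y, 0 ≤ Ii y := fun y =>
    intervalIntegral.integral_nonneg (by linarith) fun t _ =>
      mul_nonneg (sq_nonneg _) (P_nonneg hx.le 0 t)
  set A₀ : ℝ := 18 * ((N : ℝ) + 1) ^ (2 * x) * Real.exp E with hA₀
  have hA0 : 0 < A₀ := by positivity
  set G : Set ℝ := {y : ℝ | y ∈ Icc (-R) R ∧ ¬ V < Vy L y} with hG
  have hGm : MeasurableSet G := by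
    rw [hG]
    exact measurableSet_Icc.inter (measurableSet_lt measurable_const (GOD_meas L).measurable).compl
  have hGs : G ⊆ Icc (-R) R := fun y hy => hy.1
  have hpt : ∀ y ∈ G, ‖Tx N b x y‖ₑ ^ 2 ≤
      ENNReal.ofReal A₀ * (ENNReal.ofReal (2 / Real.pi) * ENNReal.ofReal (Ii y) +
        ENNReal.ofReal (2 * P₂ ^ 2)) := by
    intro y hy
    have hyR : |y| ≤ R := abs_le.2 hy.1
    have hyV : Vy L y ≤ V := not_lt.1 hy.2
    have h4 := qf_left N b hx.le hx4 y
    have h5 := pointwise2 (N := N) (b := b) (y := y) hx hx4 hκ hκ2 hL hK hLK hK2 hxL hMu hMv hP₀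
      hP₁ hP₂ hP₂1 h02 h12 hP₀v hP₁u hP₁1 hXL (fun z hz => (qf_bound N b hz).trans hv)
      (hu y hyR) hyV
    have hN1 : (0 : ℝ) < (N : ℝ) + 1 := by positivity
    unfold Tx
    rw [enorm_sq, ← ENNReal.ofReal_mul (by positivity), ← ENNReal.ofReal_add (by
      have := hIi0 y
      positivity) (by positivity), ← ENNReal.ofReal_mul hA0.le]
    apply ENNReal.ofReal_le_ofReal
    calc ‖Nm N b (1 / 2 - x + y * I) / (1 / 2 - x + y * I)‖ ^ 2 ≤
          (3 * ((N : ℝ) + 1) ^ x * ‖qf N b (-x + y * I)‖) ^ 2 :=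
          pow_le_pow_left₀ (norm_nonneg _) h4 2
      _ = 9 * ((N : ℝ) + 1) ^ (2 * x) * ‖qf N b (-x + y * I)‖ ^ 2 := by
          rw [mul_pow, mul_pow, ← Real.rpow_natCast (((N : ℝ) + 1) ^ x), ← Real.rpow_mul hN1.le]
          push_cast
          rw [mul_comm x 2]
          ring
      _ ≤ 9 * ((N : ℝ) + 1) ^ (2 * x) * (2 * Real.exp E *
            (2 / Real.pi * Ii y + 2 * P₂ ^ 2)) := by
          gcongr
      _ = A₀ * (2 / Real.pi * Ii y + 2 * P₂ ^ 2) := by
          rw [hA₀]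
          ring
  have hBm : Measurable fun y => ENNReal.ofReal (2 / Real.pi) * ENNReal.ofReal (Ii y) := by
    have h5 : Measurable Ii := by
      have h6 : Continuous fun p : ℝ × ℝ => B (p.1 - p.2) ^ 2 * P x 0 p.2 :=
        ((hBc.comp (continuous_fst.sub continuous_snd)).pow 2).mul
          ((continuous_P hx 0).comp continuous_snd)
      exact (intervalIntegral.continuous_parametric_intervalIntegral_of_continuous'
        (f := fun y t => B (y - t) ^ 2 * P x 0 t) h6 (-L) L).measurable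
    exact (ENNReal.measurable_ofReal.comp h5).const_mul _
  have hB2 : ∫⁻ y : ℝ, ENNReal.ofReal (B y ^ 2) ≤ ENNReal.ofReal (2 * Real.pi) * IH := by
    rw [hIH, plancherel (adm_Hs b fun n hn => pos_of_mem hn), hinv]
    refine lintegral_mono fun t => ?_
    rw [enorm_sq]
    apply ENNReal.ofReal_le_ofReal
    apply pow_le_pow_left₀ (mul_nonneg (norm_nonneg _) (norm_nonneg _))
    rw [mellin_Hs, norm_neg, norm_mul]
    rw [qf_line]
    exact mul_le_mul_of_nonneg_right (fz_line t) (norm_nonneg _)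
  calc ∫⁻ y in G, ‖Tx N b x y‖ₑ ^ 2
      ≤ ∫⁻ y in G, ENNReal.ofReal A₀ * (ENNReal.ofReal (2 / Real.pi) *
          ENNReal.ofReal (Ii y) + ENNReal.ofReal (2 * P₂ ^ 2)) :=
        setLIntegral_mono' hGm hpt
    _ ≤ ∫⁻ y in Icc (-R) R, ENNReal.ofReal A₀ * (ENNReal.ofReal (2 / Real.pi) *
          ENNReal.ofReal (Ii y) + ENNReal.ofReal (2 * P₂ ^ 2)) := lintegral_mono_set hGs
    _ = ENNReal.ofReal A₀ * ((∫⁻ y in Icc (-R) R, ENNReal.ofReal (2 / Real.pi) *
          ENNReal.ofReal (Ii y)) + ENNReal.ofReal (2 * P₂ ^ 2) * ENNReal.ofReal (R - -R)) := by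
        rw [lintegral_const_mul' _ _ ENNReal.ofReal_ne_top, lintegral_add_left hBm,
          setLIntegral_const, Real.volume_Icc]
    _ ≤ ENNReal.ofReal A₀ * (ENNReal.ofReal (4 * Real.pi) * IH +
          ENNReal.ofReal (4 * R * P₂ ^ 2)) := by
        gcongr
        · calc ∫⁻ y in Icc (-R) R, ENNReal.ofReal (2 / Real.pi) * ENNReal.ofReal (Ii y)
              ≤ ∫⁻ y : ℝ, ENNReal.ofReal (2 / Real.pi) * ENNReal.ofReal (Ii y) :=
                setLIntegral_le_lintegral _ _
            _ = ENNReal.ofReal (2 / Real.pi) * ∫⁻ y : ℝ, ENNReal.ofReal (Ii y) :=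
                lintegral_const_mul' _ _ ENNReal.ofReal_ne_top
            _ ≤ ENNReal.ofReal (2 / Real.pi) * (ENNReal.ofReal Real.pi *
                  (ENNReal.ofReal (2 * Real.pi) * IH)) := by
                gcongr
                exact (conv_le hBc hx hL).trans (by gcongr)
            _ = ENNReal.ofReal (4 * Real.pi) * IH := by
                rw [← mul_assoc, ← mul_assoc, ← ENNReal.ofReal_mul (by positivity),
                  ← ENNReal.ofReal_mul (by positivity)]
                congr 2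
                field_simp
                ring
        · rw [← ENNReal.ofReal_mul (by positivity)]
          apply ENNReal.ofReal_le_ofReal
          apply le_of_eq
          ring
    _ = _ := rfl

end Pool.Agent.NBP
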