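import Pool.Agent.NBP.Targets

/-!
# HGH: the high frequencies on the line `1/2 - x`
-/

set_option autoImplicit false

open MeasureTheory Complex Set Filter Topology
open Pool.Agent.Lib.TwoConst
open scoped ENNReal InnerProductSpace ComplexConjugate

namespace Pool.Agent.NBP

open Pool.Agent.NBL

namespace HGH_

theorem cpow_shift {k : ℕ} (hk : 0 < k) (x t : ℝ) :
    (k : ℂ) ^ (-(1 / 2 - x + t * I)) = (((k : ℝ) ^ x : ℝ) : ℂ) * (k : ℂ) ^ (-(1 / 2 + t * I)) := by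
  have hk0 : (0 : ℝ) < k := by exact_mod_cast hk
  have hk1 : (k : ℂ) ≠ 0 := by exact_mod_cast hk0.ne'
  rw [show (-(1 / 2 - x + t * I) : ℂ) = (x : ℂ) + -(1 / 2 + t * I) by ring, cpow_add _ _ hk1,
    ofReal_cpow hk0.le]
  push_cast
  rfl

/-- the mean square of the numerators -/
theorem Nm_mean_x {N : ℕ} (hN : 1 ≤ N) {T : ℝ} (hT : (N : ℝ) + 1 ≤ T) (b : ℕ → ℂ) {x : ℝ}
    (hx : x ≤ 1 / 4) :
    ∫⁻ t in Icc (-T) T, ‖Nm N b (1 / 2 - x + t * I)‖ₑ ^ 2 ≤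
      ENNReal.ofReal (4 * Kmv * T *
        ∑ n ∈ Finset.Icc 1 N, ‖b n‖ ^ 2 * (n : ℝ) ^ (2 * x) / n) := by
  have hN' : (1 : ℝ) ≤ N := by exact_mod_cast hN
  have hK := Kmv_pos
  have hT0 : 0 < T := by linarith
  set c : ℕ → ℂ := fun k => if 2 ≤ k then b (k - 1) else 0 with hc
  set B' : ℕ → ℂ := fun k => b k * (((k : ℝ) ^ x : ℝ) : ℂ) with hB'
  set C' : ℕ → ℂ := fun k => c k * (((k : ℝ) ^ x : ℝ) : ℂ) with hC'
  set S : ℝ := ∑ n ∈ Finset.Icc 1 N, ‖b n‖ ^ 2 * (n : ℝ) ^ (2 * x) / n with hS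
  have hS0 : 0 ≤ S := Finset.sum_nonneg fun n _ => by positivity
  have e1 : ∀ u : ℕ → ℂ, ∑ k ∈ Finset.Icc 1 (N + 1), c k * u k =
      ∑ n ∈ Finset.Icc 1 N, b n * u (n + 1) := by
    intro u
    have e0 : Finset.Icc 1 (N + 1) = Finset.Ico 1 (N + 2) := by
      ext k; simp only [Finset.mem_Icc, Finset.mem_Ico]; omega
    have e2 : Finset.Icc 1 N = Finset.Ico 1 (N + 1) := by
      ext k; simp only [Finset.mem_Icc, Finset.mem_Ico]; omega
    rw [e0, Finset.sum_eq_sum_Ico_succ_bot (by omega), e2]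
    have hc1 : c 1 = 0 := by simp [hc]
    rw [hc1, zero_mul, zero_add, ← Finset.sum_Ico_add' (fun k => c k * u k) 1 (N + 1) 1]
    refine Finset.sum_congr rfl fun k hk => ?_
    rw [Finset.mem_Ico] at hk
    simp only [hc]
    rw [if_pos (by omega), Nat.add_sub_cancel]
  have e3 : ∀ t : ℝ, Nm N b (1 / 2 - x + t * I) =
      (∑ k ∈ Finset.Icc 1 N, B' k * (k : ℂ) ^ (-(1 / 2 + t * I))) -
        ∑ k ∈ Finset.Icc 1 (N + 1), C' k * (k : ℂ) ^ (-(1 / 2 + t * I)) := by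
    intro t
    have e4 : ∑ k ∈ Finset.Icc 1 (N + 1), C' k * (k : ℂ) ^ (-(1 / 2 + t * I)) =
        ∑ k ∈ Finset.Icc 1 (N + 1), c k *
          ((((k : ℝ) ^ x : ℝ) : ℂ) * (k : ℂ) ^ (-(1 / 2 + t * I))) := by
      refine Finset.sum_congr rfl fun k _ => ?_
      simp only [hC']
      ring
    rw [e4, e1 (fun k => (((k : ℝ) ^ x : ℝ) : ℂ) * (k : ℂ) ^ (-(1 / 2 + t * I)))]
    unfold Nm un
    rw [← Finset.sum_sub_distrib]
    refine Finset.sum_congr rfl fun k hk => ?_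
    rw [cpow_shift (pos_of_mem hk), cpow_shift (Nat.succ_pos k)]
    simp only [hB']
    ring
  have hpw : ∀ k : ℕ, 0 < k → ((k : ℝ) ^ x) ^ 2 = (k : ℝ) ^ (2 * x) := by
    intro k hk
    have hk0 : (0 : ℝ) < k := by exact_mod_cast hk
    rw [← Real.rpow_natCast, ← Real.rpow_mul hk0.le]
    congr 1
    push_cast
    ring
  have hnorm : ∀ (z : ℂ) (k : ℕ), 0 < k →
      ‖z * (((k : ℝ) ^ x : ℝ) : ℂ)‖ ^ 2 = ‖z‖ ^ 2 * (k : ℝ) ^ (2 * x) := by
    intro z k hk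
    have hk0 : (0 : ℝ) < k := by exact_mod_cast hk
    rw [norm_mul, mul_pow, norm_real, Real.norm_of_nonneg (by positivity), hpw k hk]
  have hb2 : ∑ k ∈ Finset.Icc 1 N, ‖B' k‖ ^ 2 / k ≤ S := by
    rw [hS]
    refine Finset.sum_le_sum fun n hn => ?_
    simp only [hB']
    rw [hnorm _ _ (pos_of_mem hn)]
  have hc2 : ∑ k ∈ Finset.Icc 1 (N + 1), ‖C' k‖ ^ 2 / k ≤ S := by
    have e4 : ∑ k ∈ Finset.Icc 1 (N + 1), ‖C' k‖ ^ 2 / (k : ℝ) =
        ∑ n ∈ Finset.Icc 1 N, ‖b n‖ ^ 2 * ((n + 1 : ℕ) : ℝ) ^ (2 * x) / ((n + 1 : ℕ) : ℝ) := by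
      have e0 : Finset.Icc 1 (N + 1) = Finset.Ico 1 (N + 2) := by
        ext k; simp only [Finset.mem_Icc, Finset.mem_Ico]; omega
      have e2 : Finset.Icc 1 N = Finset.Ico 1 (N + 1) := by
        ext k; simp only [Finset.mem_Icc, Finset.mem_Ico]; omega
      rw [e0, Finset.sum_eq_sum_Ico_succ_bot (by omega), e2]
      have hc1 : C' 1 = 0 := by simp [hC', hc]
      rw [hc1, ← Finset.sum_Ico_add' (fun k : ℕ => ‖C' k‖ ^ 2 / (k : ℝ)) 1 (N + 1) 1]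
      simp only [norm_zero, ne_eq, OfNat.ofNat_ne_zero, not_false_eq_true, zero_pow, zero_div,
        zero_add]
      refine Finset.sum_congr rfl fun k hk => ?_
      rw [Finset.mem_Ico] at hk
      simp only [hC']
      rw [hnorm _ _ (by omega)]
      simp only [hc]
      rw [if_pos (by omega), Nat.add_sub_cancel]
    rw [e4, hS]
    refine Finset.sum_le_sum fun n hn => ?_
    have hn0 : (0 : ℝ) < n := by exact_mod_cast pos_of_mem hn
    rw [mul_div_assoc, mul_div_assoc]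
    refine mul_le_mul_of_nonneg_left ?_ (by positivity)
    have hn1 : (0 : ℝ) < ((n + 1 : ℕ) : ℝ) := by positivity
    have f1 : ((n + 1 : ℕ) : ℝ) ^ (2 * x) / ((n + 1 : ℕ) : ℝ) =
        ((n + 1 : ℕ) : ℝ) ^ (2 * x - 1) := by
      rw [Real.rpow_sub hn1, Real.rpow_one]
    have f2 : (n : ℝ) ^ (2 * x) / (n : ℝ) = (n : ℝ) ^ (2 * x - 1) := by
      rw [Real.rpow_sub hn0, Real.rpow_one]
    rw [f1, f2]
    exact Real.rpow_le_rpow_of_nonpos hn0 (by push_cast; linarith) (by linarith)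
  have m1 := mean_value_full hN (T := T) (by linarith) B'
  have m2 := mean_value_full (M := N + 1) (by omega) (T := T) (by push_cast; linarith) C'
  have hmeas : Measurable fun t : ℝ =>
      2 * ‖∑ k ∈ Finset.Icc 1 N, B' k * (k : ℂ) ^ (-(1 / 2 + t * I))‖ₑ ^ 2 := by
    have h1 : Continuous fun t : ℝ => ∑ k ∈ Finset.Icc 1 N, B' k * (k : ℂ) ^ (-(1 / 2 + t * I)) :=
      Dp_cont (s := Finset.Icc 1 N) (fun k hk => pos_of_mem hk) B'
    exact (h1.measurable.enorm.pow_const 2).const_mul 2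
  calc ∫⁻ t in Icc (-T) T, ‖Nm N b (1 / 2 - x + t * I)‖ₑ ^ 2
      ≤ ∫⁻ t in Icc (-T) T, (2 * ‖∑ k ∈ Finset.Icc 1 N, B' k * (k : ℂ) ^ (-(1 / 2 + t * I))‖ₑ ^ 2 +
          2 * ‖∑ k ∈ Finset.Icc 1 (N + 1), C' k * (k : ℂ) ^ (-(1 / 2 + t * I))‖ₑ ^ 2) := by
        refine lintegral_mono fun t => ?_
        rw [e3 t]
        refine (enorm_sq_add_le _ _).trans (add_le_add le_rfl ?_)
        rw [enorm_sq, ENNReal.ofReal_mul (by norm_num)]
        simp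
    _ = 2 * (∫⁻ t in Icc (-T) T,
          ‖∑ k ∈ Finset.Icc 1 N, B' k * (k : ℂ) ^ (-(1 / 2 + t * I))‖ₑ ^ 2) +
        2 * ∫⁻ t in Icc (-T) T,
          ‖∑ k ∈ Finset.Icc 1 (N + 1), C' k * (k : ℂ) ^ (-(1 / 2 + t * I))‖ₑ ^ 2 := by
        rw [lintegral_add_left hmeas, lintegral_const_mul' _ _ (by simp),
          lintegral_const_mul' _ _ (by simp)]
    _ ≤ 2 * ENNReal.ofReal (Kmv * T * S) + 2 * ENNReal.ofReal (Kmv * T * S) := by
        gcongr
        · refine m1.trans (ENNReal.ofReal_le_ofReal ?_)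
          exact mul_le_mul_of_nonneg_left hb2 (by positivity)
        · refine m2.trans (ENNReal.ofReal_le_ofReal ?_)
          exact mul_le_mul_of_nonneg_left hc2 (by positivity)
    _ = _ := by
        have h2 : (2 : ℝ≥0∞) = ENNReal.ofReal 2 := by simp
        rw [h2, ← ENNReal.ofReal_mul (by norm_num), ← ENNReal.ofReal_add (by positivity)
          (by positivity)]
        congr 1
        ring

/-- high frequencies -/
theorem high_x {N : ℕ} (hN : 1 ≤ N) {R : ℝ} (hR : (N : ℝ) + 1 ≤ R) (b : ℕ → ℂ) {x : ℝ}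
    (hx : x ≤ 1 / 4) :
    ∫⁻ t in {t : ℝ | R ≤ |t|}, ‖Tx N b x t‖ₑ ^ 2 ≤
      ENNReal.ofReal (16 * Kmv *
        (∑ n ∈ Finset.Icc 1 N, ‖b n‖ ^ 2 * (n : ℝ) ^ (2 * x) / n) / R) := by
  have hN' : (1 : ℝ) ≤ N := by exact_mod_cast hN
  have hR0 : 0 < R := by linarith
  have hK := Kmv_pos
  set D : ℝ → ℂ := fun t => Nm N b (1 / 2 - x + t * I) with hD
  set S : ℝ := ∑ n ∈ Finset.Icc 1 N, ‖b n‖ ^ 2 * (n : ℝ) ^ (2 * x) / n with hS
  have hS0 : 0 ≤ S := Finset.sum_nonneg fun n _ => by positivity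
  set Bl : ℕ → Set ℝ := fun j => {t : ℝ | 2 ^ j * R ≤ |t| ∧ |t| ≤ 2 ^ (j + 1) * R} with hBl
  have hBlm : ∀ j, MeasurableSet (Bl j) := by
    intro j
    exact (measurableSet_le measurable_const continuous_abs.measurable).inter
      (measurableSet_le continuous_abs.measurable measurable_const)
  have hcover : {t : ℝ | R ≤ |t|} ⊆ ⋃ j, Bl j := by
    intro t ht
    have h1 : 1 ≤ |t| / R := by
      rw [le_div_iff₀ hR0, one_mul]
      exact ht
    obtain ⟨n, hn1, hn2⟩ := exists_nat_pow_near h1 (one_lt_two)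
    rw [mem_iUnion]
    refine ⟨n, ?_, ?_⟩
    · rwa [le_div_iff₀ hR0] at hn1
    · rw [div_lt_iff₀ hR0] at hn2
      exact hn2.le
  have hden : ∀ t : ℝ, |t| ≤ ‖(1 / 2 - x + t * I : ℂ)‖ := by
    intro t
    have h1 := Complex.abs_im_le_norm (1 / 2 - x + t * I : ℂ)
    have h2 : (1 / 2 - x + t * I : ℂ).im = t := by simp
    rwa [h2] at h1
  have hblock : ∀ j : ℕ, ∫⁻ t in Bl j, ‖D t / (1 / 2 - x + t * I)‖ₑ ^ 2 ≤
      ENNReal.ofReal (8 * Kmv * S / R * (1 / 2) ^ j) := by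
    intro j
    set T : ℝ := 2 ^ (j + 1) * R with hT
    have hTN : (N : ℝ) + 1 ≤ T := by
      have : (1 : ℝ) ≤ 2 ^ (j + 1) := one_le_pow₀ (by norm_num)
      nlinarith
    have hT0 : 0 < T := by linarith
    have h1 : ∀ t ∈ Bl j, ‖D t / (1 / 2 - x + t * I)‖ₑ ^ 2 ≤
        ENNReal.ofReal (4 / T ^ 2) * ‖D t‖ₑ ^ 2 := by
      intro t ht
      obtain ⟨ht1, ht2⟩ := ht
      have ht3 : T / 2 ≤ |t| := by
        rw [hT, pow_succ]
        linarith
      rw [enorm_sq, enorm_sq, ← ENNReal.ofReal_mul (by positivity)]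
      apply ENNReal.ofReal_le_ofReal
      rw [norm_div]
      have h3 := hden t
      calc (‖D t‖ / ‖(1 / 2 - x + t * I : ℂ)‖) ^ 2 ≤ (‖D t‖ / (T / 2)) ^ 2 := by
            apply pow_le_pow_left₀ (by positivity)
            exact div_le_div_of_nonneg_left (norm_nonneg _) (by positivity) (ht3.trans h3)
        _ = 4 / T ^ 2 * ‖D t‖ ^ 2 := by
            field_simp
            ring
    have hsub : Bl j ⊆ Icc (-T) T := fun t ht => abs_le.1 ht.2
    calc ∫⁻ t in Bl j, ‖D t / (1 / 2 - x + t * I)‖ₑ ^ 2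
        ≤ ∫⁻ t in Bl j, ENNReal.ofReal (4 / T ^ 2) * ‖D t‖ₑ ^ 2 := setLIntegral_mono' (hBlm j) h1
      _ ≤ ∫⁻ t in Icc (-T) T, ENNReal.ofReal (4 / T ^ 2) * ‖D t‖ₑ ^ 2 := lintegral_mono_set hsub
      _ = ENNReal.ofReal (4 / T ^ 2) * ∫⁻ t in Icc (-T) T, ‖D t‖ₑ ^ 2 := by
          rw [lintegral_const_mul' _ _ ENNReal.ofReal_ne_top]
      _ ≤ ENNReal.ofReal (4 / T ^ 2) * ENNReal.ofReal (4 * Kmv * T * S) := by
          gcongr
          exact Nm_mean_x hN hTN b hx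
      _ = _ := by
          rw [← ENNReal.ofReal_mul (by positivity)]
          congr 1
          rw [hT, pow_succ]
          rw [div_pow, one_pow]
          field_simp
          ring
  calc ∫⁻ t in {t : ℝ | R ≤ |t|}, ‖Tx N b x t‖ₑ ^ 2
      ≤ ∫⁻ t in ⋃ j, Bl j, ‖D t / (1 / 2 - x + t * I)‖ₑ ^ 2 := lintegral_mono_set hcover
    _ ≤ ∑' j, ∫⁻ t in Bl j, ‖D t / (1 / 2 - x + t * I)‖ₑ ^ 2 := lintegral_iUnion_le _ _
    _ ≤ ∑' j, ENNReal.ofReal (8 * Kmv * S / R * (1 / 2) ^ j) := ENNReal.tsum_le_tsum hblock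
    _ = ENNReal.ofReal (16 * Kmv * S / R) := by
        rw [← ENNReal.ofReal_tsum_of_nonneg (fun j => by positivity)
          ((summable_geometric_of_lt_one (by norm_num) (by norm_num)).mul_left _), tsum_mul_left,
          tsum_geometric_of_lt_one (by norm_num) (by norm_num)]
        congr 1
        ring

end HGH_

open HGH_ in
theorem p_HGH : T_HGH := by
  intro N hN b x R _ hx1 hR
  have hN' : (1 : ℝ) ≤ N := by exact_mod_cast hN
  have hR0 : 0 < R := by linarith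
  have hK := Kmv_pos
  refine (high_x hN hR b hx1).trans (ENNReal.ofReal_le_ofReal ?_)
  have h1 : ∑ n ∈ Finset.Icc 1 N, ‖b n‖ ^ 2 * (n : ℝ) ^ (2 * x) / n ≤ 2 * N * Wx N b x := by
    unfold Wx wx
    rw [Finset.mul_sum]
    refine Finset.sum_le_sum fun n hn => ?_
    have hn0 : (0 : ℝ) < n := by exact_mod_cast pos_of_mem hn
    have hnN : (n : ℝ) ≤ N := by
      rw [Finset.mem_Icc] at hn
      exact_mod_cast hn.2
    have h2 : 1 / (n : ℝ) ≤ 2 * N * (1 / n - 1 / ((n : ℝ) + 1)) := by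
      have h3 : 1 / (n : ℝ) - 1 / ((n : ℝ) + 1) = 1 / (n * ((n : ℝ) + 1)) := by
        field_simp
        ring
      rw [h3, mul_one_div, div_le_div_iff₀ hn0 (by positivity)]
      nlinarith
    calc ‖b n‖ ^ 2 * (n : ℝ) ^ (2 * x) / n = ‖b n‖ ^ 2 * (n : ℝ) ^ (2 * x) * (1 / n) := by ring
      _ ≤ ‖b n‖ ^ 2 * (n : ℝ) ^ (2 * x) * (2 * N * (1 / n - 1 / ((n : ℝ) + 1))) :=
          mul_le_mul_of_nonneg_left h2 (by positivity)
      _ = 2 * N * (‖b n‖ ^ 2 * ((n : ℝ) ^ (2 * x) * (1 / n - 1 / ((n : ℝ) + 1)))) := by ring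
  have hS0 : 0 ≤ ∑ n ∈ Finset.Icc 1 N, ‖b n‖ ^ 2 * (n : ℝ) ^ (2 * x) / n :=
    Finset.sum_nonneg fun n _ => by positivity
  apply div_le_div_of_nonneg_right _ hR0.le
  calc 16 * Kmv * ∑ n ∈ Finset.Icc 1 N, ‖b n‖ ^ 2 * (n : ℝ) ^ (2 * x) / n
      ≤ 16 * Kmv * (2 * N * Wx N b x) := mul_le_mul_of_nonneg_left h1 (by positivity)
    _ ≤ 64 * Kmv * N * Wx N b x := by
        have h4 : 0 ≤ 2 * N * Wx N b x := hS0.trans h1
        nlinarith [mul_nonneg hK.le h4]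

end Pool.Agent.NBP
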