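import Pool.Agent.NBP.P_GOD

/-!
# The choice of the parameters
-/

set_option autoImplicit false

open MeasureTheory Complex Set Filter Topology
open Pool.Agent.Lib.TwoConst
open scoped ENNReal InnerProductSpace ComplexConjugate

namespace Pool.Agent.NBP

open Pool.Agent.NBL

lemma PAR_wx {x : ℝ} (hx : 0 ≤ x) {N n : ℕ} (hn : n ∈ Finset.Icc 1 N) :
    1 / (2 * (N : ℝ) ^ 2) ≤ wx x n := by
  rw [Finset.mem_Icc] at hn
  have hn1 : (1 : ℝ) ≤ n := by exact_mod_cast hn.1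
  have hnN : (n : ℝ) ≤ N := by exact_mod_cast hn.2
  have hn0 : (0 : ℝ) < n := by linarith
  unfold wx
  have h1 : 1 / (n : ℝ) - 1 / ((n : ℝ) + 1) = 1 / ((n : ℝ) * (n + 1)) := by
    field_simp
    ring
  rw [h1]
  have h2 : (1 : ℝ) ≤ (n : ℝ) ^ (2 * x) := Real.one_le_rpow hn1 (by positivity)
  have h3 : 1 / (2 * (N : ℝ) ^ 2) ≤ 1 / ((n : ℝ) * (n + 1)) := by
    apply one_div_le_one_div_of_le (by positivity)
    nlinarith
  have h4 : 0 < 1 / ((n : ℝ) * (n + 1)) := by positivity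
  nlinarith

lemma PAR_sum {x : ℝ} (hx : 0 ≤ x) {N : ℕ} (hN : 8 ≤ N) {b : ℕ → ℂ} (hb : Wx N b x = 1) :
    4 * ∑ n ∈ Finset.Icc 1 N, ‖b n‖ ≤ (N : ℝ) ^ (3 : ℝ) := by
  have hN' : (8 : ℝ) ≤ N := by exact_mod_cast hN
  have h0 : ∀ n ∈ Finset.Icc 1 N, ‖b n‖ ≤ 2 * N := by
    intro n hn
    have h1 := PAR_wx hx hn
    have h2 : ‖b n‖ ^ 2 * wx x n ≤ 1 := by
      rw [← hb]
      unfold Wx
      exact Finset.single_le_sum (f := fun n => ‖b n‖ ^ 2 * wx x n) (fun m hm => by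
        have h3 := PAR_wx hx hm
        have h4 : (0 : ℝ) < 1 / (2 * (N : ℝ) ^ 2) := by positivity
        have h5 : 0 < wx x m := lt_of_lt_of_le h4 h3
        positivity) hn
    have h3 : ‖b n‖ ^ 2 * (1 / (2 * (N : ℝ) ^ 2)) ≤ 1 :=
      (mul_le_mul_of_nonneg_left h1 (by positivity)).trans h2
    have h4 : ‖b n‖ ^ 2 ≤ (2 * (N : ℝ)) ^ 2 := by
      rw [mul_one_div, div_le_one (by positivity)] at h3
      nlinarith
    exact (pow_le_pow_iff_left₀ (norm_nonneg _) (by positivity) (by norm_num : (2 : ℕ) ≠ 0)).1 h4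
  have h1 : ∑ n ∈ Finset.Icc 1 N, ‖b n‖ ≤ ∑ _n ∈ Finset.Icc 1 N, 2 * (N : ℝ) :=
    Finset.sum_le_sum h0
  rw [Finset.sum_const, Nat.card_Icc, nsmul_eq_mul, Nat.add_sub_cancel] at h1
  have e : (N : ℝ) ^ (3 : ℝ) = (N : ℝ) ^ 3 := by
    rw [← Real.rpow_natCast]
    norm_num
  rw [e]
  have h2 : 8 * (N : ℝ) ^ 2 ≤ N * (N : ℝ) ^ 2 :=
    mul_le_mul_of_nonneg_right hN' (by positivity)
  calc 4 * ∑ n ∈ Finset.Icc 1 N, ‖b n‖ ≤ 4 * (N * (2 * N)) := by linarith
    _ = 8 * (N : ℝ) ^ 2 := by ring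
    _ ≤ N * (N : ℝ) ^ 2 := h2
    _ = (N : ℝ) ^ 3 := by ring

/-- logarithms and powers -/
lemma PAR_log {C a β : ℝ} (hβ : 0 < β) : ∃ N₀ : ℕ, ∀ N : ℕ, N₀ ≤ N →
    C * (a + Real.log N) ≤ (N : ℝ) ^ β := by
  have h1 : Tendsto (fun N : ℕ => (N : ℝ)) atTop atTop := tendsto_natCast_atTop_atTop
  have h2 : (fun y : ℝ => C * (a + Real.log y)) =o[atTop] fun y : ℝ => y ^ β := by
    apply Asymptotics.IsLittleO.const_mul_left
    refine Asymptotics.IsLittleO.add ?_ (isLittleO_log_rpow_atTop hβ)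
    exact Asymptotics.isLittleO_const_left.2 (Or.inr
      (tendsto_norm_atTop_atTop.comp (tendsto_rpow_atTop hβ)))
  have h3 := (h2.comp_tendsto h1).bound (c := 1) one_pos
  obtain ⟨N₀, hN₀⟩ := eventually_atTop.1 h3
  refine ⟨max N₀ 1, fun N hN => ?_⟩
  have h4 := hN₀ N ((le_max_left _ _).trans hN)
  simp only [Function.comp_apply, one_mul] at h4
  have h5 : (0 : ℝ) ≤ (N : ℝ) ^ β := by positivity
  rw [Real.norm_of_nonneg h5] at h4
  exact (Real.le_norm_self _).trans h4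

theorem p_PAR (hWPL : T_WPL) (hHGH : T_HGH) (hBAD : T_BAD) (hGOD : T_GOD) : T_PAR := by
  intro ε hε hε1
  have hpi := Real.pi_gt_three
  have hpi2 := Real.pi_lt_d2
  have hKm := Kmv_pos
  have hlog12 : 0 < Real.log 12 := Real.log_pos (by norm_num)
  have hlog3 : 0 < Real.log 3 := Real.log_pos (by norm_num)
  set x : ℝ := ε / 16 with hxd
  have hx : 0 < x := by positivity
  have hx4 : x ≤ 1 / 16 := by rw [hxd]; linarith
  have hex : ε * x ≤ 1 * (1 / 16) := mul_le_mul hε1 hx4 hx.le zero_le_one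
  set κ : ℝ := ε * x / 1000 with hκd
  have hκ : 0 < κ := by positivity
  have hκ2 : κ ≤ 1 / 16000 := by
    rw [hκd]
    linarith
  set β : ℝ := ε * x / 100 with hβd
  have hβ : 0 < β := by positivity
  have hβ1 : β ≤ 1 := by
    rw [hβd]
    linarith
  set L : ℝ := 3 / κ with hLd
  have hL : 0 < L := by positivity
  have hL1 : 1 ≤ L := by
    rw [hLd, le_div_iff₀ hκ]
    linarith
  set K : ℝ := L * (1 + 1 / κ) with hKd
  have hKL : K - L = L / κ := by rw [hKd]; ring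
  have hLK : L < K := by
    have : 0 < L / κ := by positivity
    linarith
  have hK : 2 * L / (Real.pi * (K - L)) ≤ κ := by
    rw [hKL]
    have e : 2 * L / (Real.pi * (L / κ)) = 2 / Real.pi * κ := by
      field_simp
    rw [e]
    have : 2 / Real.pi ≤ 1 := by
      rw [div_le_one (by linarith)]
      linarith
    nlinarith
  have hK2 : 3 / 2 < K := by
    have h1 : 1 ≤ L / κ := by
      rw [le_div_iff₀ hκ]
      linarith
    linarith
  have hK0 : 0 < K := by linarith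
  have hxL : 2 * x / L ≤ κ := by
    rw [hLd, div_div_eq_mul_div, div_le_iff₀ (by norm_num)]
    nlinarith
  have hXL : 5 / 2 / L ≤ κ := by
    rw [hLd, div_div_eq_mul_div, div_le_iff₀ (by norm_num)]
    nlinarith
  obtain ⟨C, hC, hbd⟩ := fz_bound
  obtain ⟨CB, hCB, hbad⟩ := hBAD
  set Λ : ℝ := 64 * Kmv + 2 with hΛ
  have hΛ2 : 2 ≤ Λ := by rw [hΛ]; linarith
  set c1 : ℝ := Real.log 12 + 1 / 2 + 1 / 2 * Real.log 3 with hc1
  set A₁ : ℝ := 36 * Real.exp (5 / x * c1) with hA₁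
  have hA1 : 0 < A₁ := by positivity
  obtain ⟨n1, hn1⟩ := exists_nat_ge (C * (Λ + 1))
  obtain ⟨n2, hn2⟩ := ev_const_le (K := 30 * A₁) (ε := 3 * ε / 4) (by positivity)
  obtain ⟨n3, hn3⟩ := exists_nat_ge (2 + 2 * K)
  obtain ⟨n4, hn4⟩ := exists_nat_ge (max L Λ)
  obtain ⟨n5, hn5⟩ := PAR_log (C := CB * (Λ + 1)) (a := 1 + Real.log (Λ + 1)) (β := β / 2)
    (by positivity)
  refine ⟨x, β / 2, max (max (max n1 n2) (max n3 n4)) (max n5 8), hx, by linarith, by positivity,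
    fun N hN => ?_⟩
  have hNa : n1 ≤ N := (le_max_left _ _).trans ((le_max_left _ _).trans
    ((le_max_left _ _).trans hN))
  have hNb : n2 ≤ N := (le_max_right _ _).trans ((le_max_left _ _).trans
    ((le_max_left _ _).trans hN))
  have hNc : n3 ≤ N := (le_max_left _ _).trans ((le_max_right _ _).trans
    ((le_max_left _ _).trans hN))
  have hNd : n4 ≤ N := (le_max_right _ _).trans ((le_max_right _ _).trans
    ((le_max_left _ _).trans hN))
  have hNe : n5 ≤ N := (le_max_left _ _).trans ((le_max_right _ _).trans hN)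
  have hN8 : 8 ≤ N := (le_max_right _ _).trans ((le_max_right _ _).trans hN)
  have hN' : (8 : ℝ) ≤ N := by exact_mod_cast hN8
  have hN0 : (0 : ℝ) < N := by linarith
  have hN1 : (1 : ℝ) ≤ N := by linarith
  have hCN : C * (Λ + 1) ≤ N := hn1.trans (by exact_mod_cast hNa)
  have hNK : 2 + 2 * K ≤ N := hn3.trans (by exact_mod_cast hNc)
  have hNL : max L Λ ≤ N := hn4.trans (by exact_mod_cast hNd)
  have hNL1 : L ≤ N := (le_max_left _ _).trans hNL
  have hNL2 : Λ ≤ N := (le_max_right _ _).trans hNL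
  have hAN := hn2 N hNb
  have hLN := hn5 N hNe
  set l : ℝ := Real.log N with hl
  have hl0 : 0 < l := Real.log_pos (by linarith)
  have hlp : ∀ c : ℝ, Real.log ((N : ℝ) ^ c) = c * l := fun c => Real.log_rpow hN0 c
  have hadd : ∀ c d : ℝ, (N : ℝ) ^ c * (N : ℝ) ^ d = (N : ℝ) ^ (c + d) := fun c d =>
    (Real.rpow_add hN0 c d).symm
  have hmono : ∀ {c d : ℝ}, c ≤ d → (N : ℝ) ^ c ≤ (N : ℝ) ^ d := fun h =>
    Real.rpow_le_rpow_of_exponent_le hN1 h
  have hone : ∀ {c : ℝ}, 0 ≤ c → 1 ≤ (N : ℝ) ^ c := fun h => Real.one_le_rpow hN1 h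
  have hle1 : ∀ {c : ℝ}, c ≤ 0 → (N : ℝ) ^ c ≤ 1 := fun h =>
    Real.rpow_le_one_of_one_le_of_nonpos hN1 h
  set R : ℝ := Λ * N with hR
  have hR0 : 0 < R := by positivity
  have hRN : (N : ℝ) + 1 ≤ R := by
    rw [hR]
    nlinarith
  set V : ℝ := (N : ℝ) ^ β with hVd
  have hV1 : 1 ≤ V := hone hβ.le
  set B : Set ℝ := {y : ℝ | y ∈ Icc (-R) R ∧ V < Vy L y} with hB
  set G : Set ℝ := {y : ℝ | y ∈ Icc (-R) R ∧ ¬ V < Vy L y} with hG
  have hBm : MeasurableSet B := by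
    rw [hB]
    exact measurableSet_Icc.inter (measurableSet_lt measurable_const (GOD_meas L).measurable)
  refine ⟨B, hBm, ?_, fun b hb hq => ?_⟩
  · refine (hbad L R V hL1 (by linarith) (by linarith)).trans (ENNReal.ofReal_le_ofReal ?_)
    have h1 : R + L ≤ (Λ + 1) * N := by
      rw [hR]
      linarith
    have h2 : 1 + Real.log (R + L) ≤ 1 + Real.log (Λ + 1) + l := by
      have h3 : Real.log (R + L) ≤ Real.log ((Λ + 1) * N) :=
        Real.log_le_log (by positivity) h1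
      rw [Real.log_mul (by linarith) hN0.ne'] at h3
      linarith
    have h4 : 0 ≤ 1 + Real.log (R + L) := by
      have := Real.log_nonneg (show 1 ≤ R + L by linarith)
      linarith
    calc CB * (R + L) * (1 + Real.log (R + L)) / V ≤
          CB * ((Λ + 1) * N) * (1 + Real.log (Λ + 1) + l) / V := by
          gcongr
      _ = (CB * (Λ + 1) * (1 + Real.log (Λ + 1) + l)) * N / V := by ring
      _ ≤ ((N : ℝ) ^ (β / 2)) * N / V := by
          gcongr
      _ = (N : ℝ) ^ (1 - β / 2) := by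
          rw [div_eq_iff (by positivity), hVd, hadd]
          nth_rewrite 2 [← Real.rpow_one (N : ℝ)]
          rw [hadd]
          congr 1
          ring
  have hu : ∀ y : ℝ, |y| ≤ R → ∀ z : ℂ, 0 ≤ z.re → z.re ≤ K → |z.im| ≤ K →
      ‖fz (z + y * I)‖ ≤ (N : ℝ) ^ (2 : ℝ) := by
    intro y hy z hz1 hz2 hz3
    have h1 := hbd (z + y * I) (by simpa using hz1)
    have h2 : ‖z + y * I‖ ≤ 2 * K + R := by
      have h3 := norm_le_abs_re_add_abs_im z
      rw [abs_of_nonneg hz1] at h3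
      have h4 : ‖(y : ℂ) * I‖ = |y| := by simp
      refine (norm_add_le _ _).trans ?_
      rw [h4]
      linarith
    calc ‖fz (z + y * I)‖ ≤ C * (2 + ‖z + y * I‖) := h1
      _ ≤ C * ((Λ + 1) * N) := by
          apply mul_le_mul_of_nonneg_left _ (by linarith)
          rw [hR] at h2
          linarith
      _ = (C * (Λ + 1)) * N := by ring
      _ ≤ N * N := by gcongr
      _ = (N : ℝ) ^ (2 : ℝ) := by
          rw [Real.rpow_two]
          ring
  have hgood := hGOD N b x κ L K ((N : ℝ) ^ (2 : ℝ)) ((N : ℝ) ^ (3 : ℝ)) ((N : ℝ) ^ (-7 : ℝ))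
    ((N : ℝ) ^ (-8 : ℝ)) ((N : ℝ) ^ (-5 : ℝ)) V R hx (by linarith) hκ (by linarith) hL hK hLK hK2
    hxL (hone (by norm_num)) (hone (by norm_num)) (by positivity) (by positivity) (by positivity)
    (hle1 (by norm_num)) (by rw [hadd]; exact hmono (by norm_num))
    (by rw [hadd]; exact hmono (by norm_num))
    (lt_of_lt_of_le (Real.rpow_lt_one_of_one_lt_of_neg (by linarith) (by norm_num))
      (hone (by norm_num)))
    (lt_of_lt_of_le (Real.rpow_lt_one_of_one_lt_of_neg (by linarith) (by norm_num))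
      (hone (by norm_num)))
    (hle1 (by norm_num)) hXL hR0 (PAR_sum hx.le hN8 hb) hu
  simp only [hlp] at hgood
  set E : ℝ := 2 * (κ * (3 * l) + κ * (3 * l - -7 * l) +
        5 / (2 * x) * (Real.log 12 + 1 / 2 + 1 / 2 * Real.log (1 + 5 / 3 * V) + κ * (2 * l) +
          κ * (2 * l - -8 * l))) - 2 * κ * (-5 * l) with hE
  have hlV : Real.log (1 + 5 / 3 * V) ≤ Real.log 3 + β * l := by
    have h1 : Real.log (1 + 5 / 3 * V) ≤ Real.log (3 * V) :=
      Real.log_le_log (by positivity) (by linarith)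
    rw [Real.log_mul (by norm_num) (by positivity), hVd, hlp] at h1
    exact h1
  have hEle : E ≤ 5 / x * c1 + ε / 10 * l := by
    have e1 : E = 36 * κ * l + 5 / x * (Real.log 12 + 1 / 2 + 1 / 2 * Real.log (1 + 5 / 3 * V)) +
        60 * κ / x * l := by
      rw [hE]
      ring
    rw [e1]
    have h1 : 60 * κ / x = 6 / 100 * ε := by
      rw [hκd]
      field_simp
      norm_num
    have h2 : 5 / x * (Real.log 12 + 1 / 2 + 1 / 2 * Real.log (1 + 5 / 3 * V)) ≤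
        5 / x * c1 + 25 / 1000 * ε * l := by
      have h3 : 5 / x * (Real.log 12 + 1 / 2 + 1 / 2 * Real.log (1 + 5 / 3 * V)) ≤
          5 / x * (Real.log 12 + 1 / 2 + 1 / 2 * (Real.log 3 + β * l)) := by
        gcongr
      refine h3.trans (le_of_eq ?_)
      rw [hc1, hβd]
      field_simp
      ring
    have h4 : 36 * κ ≤ 5 / 1000 * ε := by
      rw [hκd]
      nlinarith
    have h5 : 36 * κ * l ≤ 5 / 1000 * ε * l := mul_le_mul_of_nonneg_right h4 hl0.le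
    rw [h1]
    have h6 : 0 < ε * l := by positivity
    linarith
  set A₀ : ℝ := 18 * ((N : ℝ) + 1) ^ (2 * x) * Real.exp E with hA₀
  have hA0 : 0 < A₀ := by positivity
  have hA0le : A₀ ≤ A₁ * (N : ℝ) ^ (ε / 4) := by
    have h1 : ((N : ℝ) + 1) ^ (2 * x) ≤ 2 * (N : ℝ) ^ (ε / 8) := by
      calc ((N : ℝ) + 1) ^ (2 * x) ≤ (2 * N) ^ (2 * x) :=
            Real.rpow_le_rpow (by positivity) (by linarith) (by positivity)
        _ = 2 ^ (2 * x) * (N : ℝ) ^ (2 * x) := Real.mul_rpow (by norm_num) hN0.le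
        _ ≤ 2 ^ (1 : ℝ) * (N : ℝ) ^ (ε / 8) := by
            apply mul_le_mul _ _ (by positivity) (by positivity)
            · exact Real.rpow_le_rpow_of_exponent_le (by norm_num) (by linarith)
            · apply hmono
              rw [hxd]
              linarith
        _ = 2 * (N : ℝ) ^ (ε / 8) := by rw [Real.rpow_one]
    have h2 : Real.exp E ≤ Real.exp (5 / x * c1) * (N : ℝ) ^ (ε / 10) := by
      calc Real.exp E ≤ Real.exp (5 / x * c1 + ε / 10 * l) := Real.exp_le_exp.2 hEle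
        _ = _ := by
            rw [Real.exp_add, Real.rpow_def_of_pos hN0, ← hl]
            congr 2
            ring
    calc A₀ ≤ 18 * (2 * (N : ℝ) ^ (ε / 8)) *
          (Real.exp (5 / x * c1) * (N : ℝ) ^ (ε / 10)) := by
          rw [hA₀]
          gcongr
      _ = A₁ * ((N : ℝ) ^ (ε / 8) * (N : ℝ) ^ (ε / 10)) := by
          rw [hA₁]
          ring
      _ ≤ A₁ * (N : ℝ) ^ (ε / 4) := by
          rw [hadd]
          apply mul_le_mul_of_nonneg_left (hmono (by linarith)) hA1.le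
  have hgood1 : ∫⁻ y in G, ‖Tx N b x y‖ₑ ^ 2 ≤ ENNReal.ofReal 1 := by
    refine hgood.trans ?_
    rw [← ENNReal.ofReal_add (by
      have : 0 ≤ Qb N b := integral_nonneg fun t => by positivity
      positivity) (by positivity), ← ENNReal.ofReal_mul hA0.le]
    apply ENNReal.ofReal_le_ofReal
    have h2 : 4 * R * ((N : ℝ) ^ (-5 : ℝ)) ^ 2 ≤ 4 * (N : ℝ) ^ (-ε) := by
      have e : (N : ℝ) ^ (2 : ℝ) * ((N : ℝ) ^ (-5 : ℝ)) ^ 2 = (N : ℝ) ^ (-8 : ℝ) := by
        rw [sq, hadd, hadd]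
        norm_num
      have h3 : R ≤ (N : ℝ) ^ (2 : ℝ) := by
        rw [hR, Real.rpow_two, sq]
        gcongr
      calc 4 * R * ((N : ℝ) ^ (-5 : ℝ)) ^ 2 ≤ 4 * (N : ℝ) ^ (2 : ℝ) * ((N : ℝ) ^ (-5 : ℝ)) ^ 2 := by
            gcongr
        _ = 4 * (N : ℝ) ^ (-8 : ℝ) := by rw [mul_assoc, e]
        _ ≤ 4 * (N : ℝ) ^ (-ε) := mul_le_mul_of_nonneg_left (hmono (by linarith)) (by norm_num)
    calc A₀ * (4 * Real.pi * Qb N b + 4 * R * ((N : ℝ) ^ (-5 : ℝ)) ^ 2)
        ≤ A₀ * (4 * Real.pi * (2 * (N : ℝ) ^ (-ε)) + 4 * (N : ℝ) ^ (-ε)) := by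
          gcongr
      _ ≤ (A₁ * (N : ℝ) ^ (ε / 4)) * (30 * (N : ℝ) ^ (-ε)) := by
          apply mul_le_mul hA0le _ (by positivity) (by positivity)
          have : 4 * Real.pi * (2 * (N : ℝ) ^ (-ε)) ≤ 26 * (N : ℝ) ^ (-ε) := by
            have h4 : 0 < (N : ℝ) ^ (-ε) := by positivity
            nlinarith
          linarith
      _ = 30 * A₁ * (N : ℝ) ^ (-(3 * ε / 4)) := by
          have e : (N : ℝ) ^ (-(3 * ε / 4)) = (N : ℝ) ^ (ε / 4) * (N : ℝ) ^ (-ε) := by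
            rw [hadd]
            congr 1
            ring
          rw [e]
          ring
      _ ≤ (N : ℝ) ^ (3 * ε / 4) * (N : ℝ) ^ (-(3 * ε / 4)) :=
          mul_le_mul_of_nonneg_right hAN (by positivity)
      _ = 1 := by rw [hadd, add_neg_cancel, Real.rpow_zero]
  have htot := hWPL N b x hx.le (by linarith)
  have hhigh : ∫⁻ y in {y : ℝ | R ≤ |y|}, ‖Tx N b x y‖ₑ ^ 2 ≤ ENNReal.ofReal 1 := by
    refine (hHGH N (by omega) b x R hx.le (by linarith) hRN).trans (ENNReal.ofReal_le_ofReal ?_)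
    rw [hb, mul_one, div_le_one hR0, hR, hΛ]
    nlinarith
  have hcov : (univ : Set ℝ) ⊆ ({y : ℝ | R ≤ |y|} ∪ G) ∪ B := by
    intro y _
    by_cases h1 : R ≤ |y|
    · exact Or.inl (Or.inl h1)
    · have h2 : y ∈ Icc (-R) R := abs_le.1 (not_le.1 h1).le
      by_cases h3 : V < Vy L y
      · exact Or.inr ⟨h2, h3⟩
      · exact Or.inl (Or.inr ⟨h2, h3⟩)
  have h5 : ENNReal.ofReal 3 ≤ ENNReal.ofReal 2 + ∫⁻ y in B, ‖Tx N b x y‖ₑ ^ 2 := by
    calc ENNReal.ofReal 3 ≤ ENNReal.ofReal (2 * Real.pi * Wx N b x) := by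
          apply ENNReal.ofReal_le_ofReal
          rw [hb]
          linarith
      _ ≤ ∫⁻ y : ℝ, ‖Tx N b x y‖ₑ ^ 2 := htot
      _ = ∫⁻ y in univ, ‖Tx N b x y‖ₑ ^ 2 := by rw [Measure.restrict_univ]
      _ ≤ ∫⁻ y in ({y : ℝ | R ≤ |y|} ∪ G) ∪ B, ‖Tx N b x y‖ₑ ^ 2 := lintegral_mono_set hcov
      _ ≤ (∫⁻ y in {y : ℝ | R ≤ |y|} ∪ G, ‖Tx N b x y‖ₑ ^ 2) + ∫⁻ y in B, ‖Tx N b x y‖ₑ ^ 2 :=
          lintegral_union_le _ _ _
      _ ≤ ((∫⁻ y in {y : ℝ | R ≤ |y|}, ‖Tx N b x y‖ₑ ^ 2) + ∫⁻ y in G, ‖Tx N b x y‖ₑ ^ 2) +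
            ∫⁻ y in B, ‖Tx N b x y‖ₑ ^ 2 := by
          gcongr
          exact lintegral_union_le _ _ _
      _ ≤ (ENNReal.ofReal 1 + ENNReal.ofReal 1) + ∫⁻ y in B, ‖Tx N b x y‖ₑ ^ 2 := by
          gcongr
      _ = _ := by
          rw [← ENNReal.ofReal_add (by norm_num) (by norm_num)]
          norm_num
  have h6 : ENNReal.ofReal 3 = ENNReal.ofReal 2 + 1 := by
    rw [← ENNReal.ofReal_one, ← ENNReal.ofReal_add (by norm_num) (by norm_num)]
    norm_num
  rw [h6] at h5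
  exact ENNReal.le_of_add_le_add_left ENNReal.ofReal_ne_top h5

end Pool.Agent.NBP
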