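import Pool.Agent.NBP.Targets

/-!
# WPL: weighted Plancherel on the line `1/2 - x`
-/

set_option autoImplicit false

open MeasureTheory Complex Set Filter Topology
open Pool.Agent.Lib.TwoConst
open scoped ENNReal InnerProductSpace ComplexConjugate

namespace Pool.Agent.NBP

open Pool.Agent.NBL

namespace WPL_

theorem le_Fx (N : ℕ) (b : ℕ → ℂ) {x t : ℝ} (hx : 0 ≤ x) (ht : 0 < t) :
    ‖Fs N (fun n => b n * (((n : ℝ) ^ x : ℝ) : ℂ)) t‖ ≤ ‖Fx N b x t‖ := by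
  unfold Fx
  rw [norm_smul, norm_cpow_eq_rpow_re_of_pos ht, Fs_eq N _ ht, Fs_eq N b ht]
  have e : (-(x : ℂ)).re = -x := by simp
  rw [e]
  by_cases h1 : ⌊1 / t⌋₊ ∈ Finset.Icc 1 N
  · rw [if_pos h1, if_pos h1, norm_mul, mul_comm, Complex.norm_real, Real.norm_eq_abs,
      abs_of_nonneg (by positivity)]
    refine mul_le_mul_of_nonneg_right ?_ (norm_nonneg _)
    have h2 : ((⌊1 / t⌋₊ : ℕ) : ℝ) ≤ 1 / t := Nat.floor_le (by positivity)
    calc ((⌊1 / t⌋₊ : ℕ) : ℝ) ^ x ≤ (1 / t) ^ x :=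
          Real.rpow_le_rpow (by positivity) h2 hx
      _ = t ^ (-x) := by
          rw [one_div, Real.inv_rpow ht.le, Real.rpow_neg ht.le]
  · rw [if_neg h1, if_neg h1]
    simp

theorem W_eq (N : ℕ) (b : ℕ → ℂ) (x : ℝ) :
    ∑ n ∈ Finset.Icc 1 N, ‖b n * (((n : ℝ) ^ x : ℝ) : ℂ)‖ ^ 2 *
      (1 / n - 1 / ((n : ℝ) + 1)) = Wx N b x := by
  unfold Wx wx
  refine Finset.sum_congr rfl fun n hn => ?_
  have hn0 : (0 : ℝ) < n := by exact_mod_cast pos_of_mem hn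
  rw [norm_mul, Complex.norm_real, Real.norm_eq_abs, abs_of_nonneg (by positivity), mul_pow]
  have e : ((n : ℝ) ^ x) ^ 2 = (n : ℝ) ^ (2 * x) := by
    rw [← Real.rpow_natCast, ← Real.rpow_mul hn0.le]
    congr 1
    push_cast
    ring
  rw [e]
  ring

end WPL_

open WPL_ in
theorem p_WPL : T_WPL := by
  intro N b x hx hx1
  have h1 := Fs_sq N (fun n => b n * (((n : ℝ) ^ x : ℝ) : ℂ))
  rw [W_eq] at h1
  have h2 : ENNReal.ofReal (Wx N b x) ≤ ∫⁻ t in Ioi (0 : ℝ), ‖Fx N b x t‖ₑ ^ 2 := by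
    rw [← h1]
    refine setLIntegral_mono' measurableSet_Ioi fun t ht => ?_
    rw [enorm_sq, enorm_sq]
    apply ENNReal.ofReal_le_ofReal
    exact pow_le_pow_left₀ (norm_nonneg _) (le_Fx N b hx ht) 2
  rw [plancherel (adm_Fx N b hx)] at h2
  have e : ∀ y : ℝ, mellin (Fx N b x) (1 / 2 + y * I) = Tx N b x y := by
    intro y
    rw [mellin_Fx N b hx (by linarith)]
    rfl
  simp_rw [e] at h2
  have hpi := Real.pi_pos
  rw [ENNReal.ofReal_mul (by positivity)]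
  calc ENNReal.ofReal (2 * Real.pi) * ENNReal.ofReal (Wx N b x)
      ≤ ENNReal.ofReal (2 * Real.pi) *
        (ENNReal.ofReal (1 / (2 * Real.pi)) * ∫⁻ y : ℝ, ‖Tx N b x y‖ₑ ^ 2) := by gcongr
    _ = ∫⁻ y : ℝ, ‖Tx N b x y‖ₑ ^ 2 := by
        rw [← mul_assoc, ← ENNReal.ofReal_mul (by positivity), mul_one_div_cancel (by positivity),
          ENNReal.ofReal_one, one_mul]

end Pool.Agent.NBP
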